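import Pool.Agent.J6H40.WG.Stm

set_option autoImplicit false

/-!
# Module DIS: the probability that all of several disjoint sets are hit
-/

open MeasureTheory Filter
open scoped Topology

namespace Pool.Agent.J6H40.WG

namespace DIS

theorem meas_hit {Ω : Type} [mΩ : MeasurableSpace Ω] (ℱ : Filtration ℕ mΩ) (S : ℕ → Set Ω)
    (hS : ∀ n, MeasurableSet[ℱ n] (S n)) (T : Finset ℕ) (N : ℕ) (hT : ∀ m ∈ T, m ≤ N) :
    MeasurableSet[ℱ N] {ω | ∃ m ∈ T, ω ∈ S m} := by
  have h : {ω | ∃ m ∈ T, ω ∈ S m} = ⋃ m ∈ T, S m := by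
    ext ω
    simp
  rw [h]
  exact Finset.measurableSet_biUnion _ (fun m hm => ℱ.mono (hT m hm) _ (hS m))

theorem meas_cp {Ω : Type} [mΩ : MeasurableSpace Ω] (μ : Measure Ω) (ℱ : Filtration ℕ mΩ) (S : ℕ → Set Ω)
    (N m : ℕ) (h : m ≤ N + 1) (c : ℝ) : MeasurableSet[ℱ N] {ω | cp μ ℱ S m ω ≤ c} := by
  have h1 : StronglyMeasurable[ℱ (m - 1)] (cp μ ℱ S m) := stronglyMeasurable_condExp
  have h2 : StronglyMeasurable[ℱ N] (cp μ ℱ S m) := h1.mono (ℱ.mono (by omega))
  exact h2.measurable measurableSet_Iic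

theorem meas_all {Ω : Type} {m' : MeasurableSpace Ω} (I : Finset ℕ)
    (P : ℕ → Ω → Prop) (h : ∀ i ∈ I, MeasurableSet[m'] {ω | P i ω}) :
    MeasurableSet[m'] {ω | ∀ i ∈ I, P i ω} := by
  have h' : {ω | ∀ i ∈ I, P i ω} = ⋂ i ∈ I, {ω | P i ω} := by
    ext ω
    simp
  rw [h']
  exact Finset.measurableSet_biInter _ h

theorem pull_le {Ω : Type} [mΩ : MeasurableSpace Ω] (h1 : s_PULL) (μ : Measure Ω) [IsProbabilityMeasure μ]
    (ℱ : Filtration ℕ mΩ) (S : ℕ → Set Ω) (hS : ∀ n, MeasurableSet[ℱ n] (S n)) (M : ℕ)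
    (B : Set Ω) (hB : MeasurableSet[ℱ (M - 1)] B) (c : ℝ) (hc : ∀ ω ∈ B, cp μ ℱ S M ω ≤ c) :
    μ.real (B ∩ S M) ≤ c * μ.real B := by
  have hBm : MeasurableSet B := ℱ.le _ _ hB
  have hSm : MeasurableSet (S M) := ℱ.le _ _ (hS M)
  have hp := h1 Ω μ ℱ S hS M (B.indicator (fun _ => (1 : ℝ))) 1
    (StronglyMeasurable.indicator stronglyMeasurable_const hB)
    (by
      intro ω
      by_cases h : ω ∈ B
      · simp [Set.indicator_of_mem h]
      · simp [Set.indicator_of_notMem h])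
  have e1 : ∫ ω, B.indicator (fun _ => (1 : ℝ)) ω * (S M).indicator (fun _ => (1 : ℝ)) ω ∂μ =
      μ.real (B ∩ S M) := by
    rw [← integral_indicator_one (hBm.inter hSm)]
    congr 1
    ext ω
    by_cases h : ω ∈ B
    · by_cases h' : ω ∈ S M
      · simp [h, h']
      · simp [h, h']
    · simp [h]
  have e2 : ∫ ω, B.indicator (fun _ => c) ω ∂μ = c * μ.real B := by
    rw [integral_indicator_const _ hBm]
    simp [mul_comm]
  have e3 : (fun ω => B.indicator (fun _ => (1 : ℝ)) ω * cp μ ℱ S M ω) = B.indicator (cp μ ℱ S M) := by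
    ext ω
    by_cases h : ω ∈ B
    · simp [h]
    · simp [h]
  rw [← e1, hp, ← e2, e3]
  apply integral_mono
  · exact Integrable.indicator integrable_condExp hBm
  · exact Integrable.indicator (integrable_const c) hBm
  · intro ω
    by_cases h : ω ∈ B
    · simpa [h] using hc ω h
    · simp [h]

theorem main {Ω : Type} [mΩ : MeasurableSpace Ω] (h1 : s_PULL) (μ : Measure Ω) [IsProbabilityMeasure μ]
    (ℱ : Filtration ℕ mΩ) (S : ℕ → Set Ω) (hS : ∀ n, MeasurableSet[ℱ n] (S n)) (p : ℕ → ℝ) (N : ℕ) :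
    ∀ (I : Finset ℕ) (T : ℕ → Finset ℕ),
    (∀ i ∈ I, ∀ j ∈ I, i ≠ j → Disjoint (T i) (T j)) →
    (∀ i ∈ I, ∀ m ∈ T i, 1 ≤ m ∧ m ≤ N ∧ 0 ≤ p m ∧ p m ≤ 1) →
    μ.real {ω | (∀ i ∈ I, ∃ m ∈ T i, ω ∈ S m) ∧ ∀ i ∈ I, ∀ m ∈ T i, cp μ ℱ S m ω ≤ p m} ≤
      ∏ i ∈ I, (1 - ∏ m ∈ T i, (1 - p m)) := by
  induction N with
  | zero =>
    intro I T _ hT
    have hempty : ∀ i ∈ I, T i = ∅ := by
      intro i hi
      apply Finset.eq_empty_of_forall_notMem
      intro m hm
      have := hT i hi m hm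
      omega
    rcases I.eq_empty_or_nonempty with rfl | ⟨i, hi⟩
    · simp
    · have h2 : {ω | (∀ i ∈ I, ∃ m ∈ T i, ω ∈ S m) ∧ ∀ i ∈ I, ∀ m ∈ T i, cp μ ℱ S m ω ≤ p m} = ∅ := by
        apply Set.eq_empty_of_forall_notMem
        rintro ω ⟨hω, -⟩
        obtain ⟨m, hm, -⟩ := hω i hi
        rw [hempty i hi] at hm
        simp at hm
      rw [h2, measureReal_empty]
      apply Finset.prod_nonneg
      intro j hj
      rw [hempty j hj]
      simp
  | succ N IH =>
    intro I T hdis hT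
    by_cases hM : ∃ i ∈ I, (N + 1) ∈ T i
    · obtain ⟨i0, hi0, hMi0⟩ := hM
      have hother : ∀ i ∈ I, i ≠ i0 → (N + 1) ∉ T i := by
        intro i hi hne hmem
        exact Finset.disjoint_left.1 (hdis i hi i0 hi0 hne) hmem hMi0
      have hle : ∀ i ∈ I, i ≠ i0 → ∀ m ∈ T i, m ≤ N := by
        intro i hi hne m hm
        have h2 := (hT i hi m hm).2.1
        have h3 : m ≠ N + 1 := fun h => hother i hi hne (h ▸ hm)
        omega
      have hle0 : ∀ i ∈ I, ∀ m ∈ (T i).erase (N + 1), m ≤ N := by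
        intro i hi m hm
        have h2 := (hT i hi m (Finset.mem_of_mem_erase hm)).2.1
        have h3 : m ≠ N + 1 := Finset.ne_of_mem_erase hm
        omega
      have hp0 := (hT i0 hi0 (N + 1) hMi0).2.2
      -- the events
      set C : Set Ω := {ω | ∀ i ∈ I, ∀ m ∈ T i, cp μ ℱ S m ω ≤ p m} with hC
      have hCm : MeasurableSet[ℱ N] C :=
        meas_all I _ (fun i hi => meas_all (T i) (fun m ω => cp μ ℱ S m ω ≤ p m)
          (fun m hm => meas_cp μ ℱ S N m (hT i hi m hm).2.1 (p m)))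
      set A : Set Ω := {ω | ∀ i ∈ I, ∃ m ∈ (T i).erase (N + 1), ω ∈ S m} ∩ C with hA
      set H : Set Ω := {ω | ∃ m ∈ (T i0).erase (N + 1), ω ∈ S m} with hH
      set B : Set Ω := ({ω | ∀ i ∈ I.erase i0, ∃ m ∈ T i, ω ∈ S m} ∩ Hᶜ) ∩ C with hB
      have hHm : MeasurableSet[ℱ N] H := meas_hit ℱ S hS _ N (hle0 i0 hi0)
      have hBm : MeasurableSet[ℱ N] B := by
        refine MeasurableSet.inter (MeasurableSet.inter ?_ hHm.compl) hCm
        exact meas_all _ (fun i ω => ∃ m ∈ T i, ω ∈ S m)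
          (fun i hi => meas_hit ℱ S hS _ N
            (hle i (Finset.mem_of_mem_erase hi) (Finset.ne_of_mem_erase hi)))
      have hBm' : MeasurableSet B := ℱ.le _ _ hBm
      have hsub : {ω | (∀ i ∈ I, ∃ m ∈ T i, ω ∈ S m) ∧ ∀ i ∈ I, ∀ m ∈ T i, cp μ ℱ S m ω ≤ p m} ⊆
          A ∪ (B ∩ S (N + 1)) := by
        rintro ω ⟨hω1, hω2⟩
        by_cases hh : ω ∈ H
        · left
          refine ⟨?_, hω2⟩
          intro i hi
          by_cases hi' : i = i0
          · rw [hi']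
            exact hh
          · obtain ⟨m, hm, hmS⟩ := hω1 i hi
            refine ⟨m, Finset.mem_erase.2 ⟨?_, hm⟩, hmS⟩
            intro h
            exact hother i hi hi' (h ▸ hm)
        · right
          refine ⟨⟨⟨?_, hh⟩, hω2⟩, ?_⟩
          · intro i hi
            exact hω1 i (Finset.mem_of_mem_erase hi)
          · obtain ⟨m, hm, hmS⟩ := hω1 i0 hi0
            by_cases hmN : m = N + 1
            · exact hmN ▸ hmS
            · exact absurd ⟨m, Finset.mem_erase.2 ⟨hmN, hm⟩, hmS⟩ hh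
      have hdisAB : Disjoint A B := by
        rw [Set.disjoint_left]
        rintro ω ⟨ha, -⟩ ⟨⟨-, hb⟩, -⟩
        exact hb (ha i0 hi0)
      have hAB : μ.real (A ∪ B) = μ.real A + μ.real B := measureReal_union hdisAB hBm'
      have hBS : μ.real (B ∩ S (N + 1)) ≤ p (N + 1) * μ.real B := by
        apply pull_le h1 μ ℱ S hS (N + 1) B (by simpa using hBm)
        rintro ω ⟨-, hω⟩
        exact hω i0 hi0 (N + 1) hMi0
      have hIH1 := IH I (fun i => (T i).erase (N + 1))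
        (fun i hi j hj hij => (hdis i hi j hj hij).mono (Finset.erase_subset _ _) (Finset.erase_subset _ _))
        (fun i hi m hm => by
          have h2 := hT i hi m (Finset.mem_of_mem_erase hm)
          exact ⟨h2.1, hle0 i hi m hm, h2.2.2⟩)
      have hIH2 := IH (I.erase i0) T
        (fun i hi j hj hij => hdis i (Finset.mem_of_mem_erase hi) j (Finset.mem_of_mem_erase hj) hij)
        (fun i hi m hm => by
          have hi' := Finset.mem_of_mem_erase hi
          have h2 := hT i hi' m hm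
          exact ⟨h2.1, hle i hi' (Finset.ne_of_mem_erase hi) m hm, h2.2.2⟩)
      set R : ℝ := ∏ i ∈ I.erase i0, (1 - ∏ m ∈ T i, (1 - p m)) with hR
      set Q : ℝ := ∏ m ∈ (T i0).erase (N + 1), (1 - p m) with hQ
      have hprod1 : ∏ i ∈ I, (1 - ∏ m ∈ (T i).erase (N + 1), (1 - p m)) = (1 - Q) * R := by
        rw [← Finset.mul_prod_erase I _ hi0]
        congr 1
        apply Finset.prod_congr rfl
        intro i hi
        rw [Finset.erase_eq_of_notMem (hother i (Finset.mem_of_mem_erase hi) (Finset.ne_of_mem_erase hi))]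
      have hprod2 : ∏ i ∈ I, (1 - ∏ m ∈ T i, (1 - p m)) = (1 - (1 - p (N + 1)) * Q) * R := by
        rw [← Finset.mul_prod_erase I _ hi0, ← Finset.mul_prod_erase (T i0) _ hMi0]
      have hA1 : μ.real A ≤ (1 - Q) * R := by
        rw [← hprod1]
        refine le_trans (measureReal_mono ?_) hIH1
        rintro ω ⟨ha, hc⟩
        exact ⟨ha, fun i hi m hm => hc i hi m (Finset.mem_of_mem_erase hm)⟩
      have hAB1 : μ.real (A ∪ B) ≤ R := by
        refine le_trans (measureReal_mono ?_) hIH2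
        rintro ω (⟨ha, hc⟩ | ⟨⟨hb, -⟩, hc⟩)
        · refine ⟨fun i hi => ?_, fun i hi => hc i (Finset.mem_of_mem_erase hi)⟩
          obtain ⟨m, hm, hmS⟩ := ha i (Finset.mem_of_mem_erase hi)
          exact ⟨m, Finset.mem_of_mem_erase hm, hmS⟩
        · exact ⟨hb, fun i hi => hc i (Finset.mem_of_mem_erase hi)⟩
      have hE : μ.real {ω | (∀ i ∈ I, ∃ m ∈ T i, ω ∈ S m) ∧ ∀ i ∈ I, ∀ m ∈ T i, cp μ ℱ S m ω ≤ p m} ≤
          μ.real A + μ.real (B ∩ S (N + 1)) :=
        le_trans (measureReal_mono hsub) (measureReal_union_le _ _)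
      rw [hprod2]
      have k1 : (1 - p (N + 1)) * μ.real A ≤ (1 - p (N + 1)) * ((1 - Q) * R) :=
        mul_le_mul_of_nonneg_left hA1 (by linarith [hp0.2])
      have k2 : p (N + 1) * μ.real (A ∪ B) ≤ p (N + 1) * R := mul_le_mul_of_nonneg_left hAB1 hp0.1
      rw [hAB] at k2
      nlinarith [k1, k2, hE, hBS]
    · push Not at hM
      apply IH I T hdis
      intro i hi m hm
      have h2 := hT i hi m hm
      have h3 : m ≠ N + 1 := fun h => hM i hi (h ▸ hm)
      exact ⟨h2.1, by omega, h2.2.2⟩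

end DIS

/-- the probability that all of several disjoint sets of times are hit, with bounded conditional
probabilities -/
theorem t_DIS (h1 : s_PULL) : s_DIS := by
  intro Ω mΩ μ _ ℱ S hS I T p hdis hT
  refine DIS.main h1 μ ℱ S hS p ((I.biUnion T).sup id) I T hdis ?_
  intro i hi m hm
  have h2 := hT i hi m hm
  exact ⟨h2.1, Finset.le_sup (f := id) (Finset.mem_biUnion.2 ⟨i, hi, hm⟩), h2.2⟩

end Pool.Agent.J6H40.WG
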