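import Pool.Agent.J6H40.WG.Stm

set_option autoImplicit false

open MeasureTheory Filter
open scoped Topology

namespace Pool.Agent.J6H40.WG

theorem t_PULL : s_PULL := by
  intro Ω mΩ μ _ ℱ S hS m f C hf hC
  have hSm : MeasurableSet (S m) := ℱ.le m _ (hS m)
  have hg : Integrable ((S m).indicator (fun _ => (1 : ℝ))) μ :=
    (integrable_const (1 : ℝ)).indicator hSm
  have hfm : AEStronglyMeasurable f μ := (hf.mono (ℱ.le _)).aestronglyMeasurable
  have hfg : Integrable (f * (S m).indicator (fun _ => (1 : ℝ))) μ :=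
    hg.bdd_mul hfm (Filter.Eventually.of_forall fun ω => by
      simpa [Real.norm_eq_abs] using hC ω)
  have h1 : μ[f * (S m).indicator (fun _ => (1 : ℝ)) | ℱ (m - 1)] =ᵐ[μ]
      f * μ[(S m).indicator (fun _ => (1 : ℝ)) | ℱ (m - 1)] :=
    condExp_mul_of_stronglyMeasurable_left hf hfg hg
  have h2 : ∫ ω, (μ[f * (S m).indicator (fun _ => (1 : ℝ)) | ℱ (m - 1)]) ω ∂μ =
      ∫ ω, (f * (S m).indicator (fun _ => (1 : ℝ))) ω ∂μ :=
    integral_condExp (ℱ.le _)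
  have h3 : ∫ ω, (μ[f * (S m).indicator (fun _ => (1 : ℝ)) | ℱ (m - 1)]) ω ∂μ =
      ∫ ω, (f * μ[(S m).indicator (fun _ => (1 : ℝ)) | ℱ (m - 1)]) ω ∂μ :=
    integral_congr_ae h1
  have h4 : ∫ ω, (f * (S m).indicator (fun _ => (1 : ℝ))) ω ∂μ =
      ∫ ω, (f * μ[(S m).indicator (fun _ => (1 : ℝ)) | ℱ (m - 1)]) ω ∂μ := h2.symm.trans h3
  simpa only [Pi.mul_apply, cp] using h4

end Pool.Agent.J6H40.WG
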