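import Pool.Agent.J6H40.WG.Stm

set_option autoImplicit false

/-!
# Module AS of project WG: the error terms of the sieve are `o(log d)`
-/

open Filter
open scoped Topology

namespace Pool.Agent.J6H40.WG

/-- `X c d + d ≤ d ^ 2` for all large `d` -/
theorem as_X_le (c : ℝ) (hc : 0 < c) : ∀ᶠ d : ℕ in atTop, X c d + d ≤ d ^ 2 := by
  have h0 : (fun x : ℝ => Real.log x ^ 2) =o[atTop] (fun x : ℝ => x) :=
    Real.isLittleO_pow_log_id_atTop (n := 2)
  have h1 := h0.bound (show 0 < 1 / (2 * c) by positivity)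
  have h2 := tendsto_natCast_atTop_atTop (R := ℝ) |>.eventually h1
  filter_upwards [h2, eventually_ge_atTop 2] with d hd hd2
  have hdR : (2 : ℝ) ≤ (d : ℝ) := by exact_mod_cast hd2
  have hlog : Real.log d ^ 2 ≤ 1 / (2 * c) * d := by
    have := hd
    rw [Real.norm_of_nonneg (by positivity), Real.norm_of_nonneg (by positivity)] at this
    exact this
  have hphi : (Nat.totient d : ℝ) ≤ d := by exact_mod_cast Nat.totient_le d
  have hX : (X c d : ℝ) ≤ c * (Nat.totient d : ℝ) * Real.log d ^ 2 := by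
    unfold X
    exact Nat.floor_le (by positivity)
  have hX2 : c * (Nat.totient d : ℝ) * Real.log d ^ 2 ≤ (d : ℝ) ^ 2 / 2 := by
    calc c * (Nat.totient d : ℝ) * Real.log d ^ 2 ≤ c * (d : ℝ) * (1 / (2 * c) * d) := by gcongr
      _ = (d : ℝ) ^ 2 / 2 := by field_simp
  have h3 : (d : ℝ) ≤ (d : ℝ) ^ 2 / 2 := by nlinarith
  have h4 : ((X c d + d : ℕ) : ℝ) ≤ ((d ^ 2 : ℕ) : ℝ) := by
    push_cast
    linarith
  exact_mod_cast h4

/-- the comparison function tends to `0` -/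
theorem as_lim : Tendsto (fun t : ℝ => 2 * (Real.log t / 4 + 1) ^ 2 / t ^ (1 / 2 : ℝ)) atTop (𝓝 0) := by
  have h1 : Tendsto (fun t : ℝ => Real.log t / t ^ (1 / 4 : ℝ)) atTop (𝓝 0) :=
    (isLittleO_log_rpow_atTop (by norm_num : (0 : ℝ) < 1 / 4)).tendsto_div_nhds_zero
  have h2 : Tendsto (fun t : ℝ => (t ^ (1 / 4 : ℝ))⁻¹) atTop (𝓝 0) :=
    (tendsto_rpow_atTop (by norm_num : (0 : ℝ) < 1 / 4)).inv_tendsto_atTop
  have h3 : Tendsto (fun t : ℝ => 2 * (Real.log t / t ^ (1 / 4 : ℝ) / 4 + (t ^ (1 / 4 : ℝ))⁻¹) ^ 2) atTop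
      (𝓝 (2 * (0 / 4 + 0) ^ 2)) := (((h1.div_const 4).add h2).pow 2).const_mul 2
  have h4 : (2 * ((0 : ℝ) / 4 + 0) ^ 2) = 0 := by norm_num
  rw [h4] at h3
  refine h3.congr' ?_
  filter_upwards [eventually_gt_atTop 0] with t ht
  have h5 : t ^ (1 / 2 : ℝ) = (t ^ (1 / 4 : ℝ)) ^ 2 := by
    rw [← Real.rpow_natCast, ← Real.rpow_mul ht.le]
    norm_num
  rw [h5]
  have h6 : t ^ (1 / 4 : ℝ) ≠ 0 := (Real.rpow_pos_of_pos ht _).ne'
  field_simp

theorem t_AS : s_AS := by
  intro z hz c hc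
  obtain ⟨hmono, hsl⟩ := hz
  have hlogd : Tendsto (fun d : ℕ => 2 * Real.log (d : ℝ)) atTop atTop :=
    (Real.tendsto_log_atTop.comp tendsto_natCast_atTop_atTop).const_mul_atTop (by norm_num)
  have hcomp := as_lim.comp hlogd
  have hsq : Tendsto (fun d : ℕ => d ^ 2) atTop atTop :=
    tendsto_pow_atTop (by norm_num)
  refine squeeze_zero' ?_ ?_ hcomp
  · filter_upwards [eventually_ge_atTop 1] with d hd
    have : 0 ≤ Real.log (d : ℝ) := Real.log_natCast_nonneg d
    positivity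
  · filter_upwards [as_X_le c hc, hsq.eventually hsl, hlogd.eventually (eventually_ge_atTop 1)]
      with d hX hd ht
    simp only [Function.comp_apply]
    set t : ℝ := 2 * Real.log (d : ℝ) with ht_def
    have htpos : 0 < t := by linarith
    have hlt : 0 ≤ Real.log t := Real.log_nonneg ht
    have hV : (z (X c d + d) : ℝ) ≤ Real.log t / 4 := by
      have h1 : (z (X c d + d) : ℝ) ≤ (z (d ^ 2) : ℝ) := by exact_mod_cast hmono hX
      have h2 : Real.log ((d ^ 2 : ℕ) : ℝ) = t := by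
        push_cast
        rw [Real.log_pow]
        norm_num [ht_def]
      rw [h2] at hd
      linarith
    set V : ℕ := z (X c d + d) with hV_def
    have h4 : (4 : ℝ) ^ V ≤ t ^ (1 / 2 : ℝ) := by
      have h5 : (4 : ℝ) ^ V = Real.exp (V * Real.log 4) := by
        rw [mul_comm, Real.exp_mul, Real.exp_log (by norm_num), Real.rpow_natCast]
      rw [h5, Real.rpow_def_of_pos htpos]
      apply Real.exp_le_exp.mpr
      have hl4 : Real.log 4 ≤ 2 := by
        have : Real.log 4 = 2 * Real.log 2 := by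
          rw [show (4 : ℝ) = 2 ^ 2 by norm_num, Real.log_pow]
          norm_num
        have h2 := Real.log_two_lt_d9
        linarith
      have hl40 : 0 ≤ Real.log 4 := Real.log_nonneg (by norm_num)
      calc (V : ℝ) * Real.log 4 ≤ Real.log t / 4 * 2 := by gcongr
        _ = Real.log t * (1 / 2) := by ring
    have hL : Real.log (d : ℝ) = t / 2 := by rw [ht_def]; ring
    rw [hL]
    have hts : t = t ^ (1 / 2 : ℝ) * t ^ (1 / 2 : ℝ) := by
      rw [← Real.rpow_add htpos]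
      norm_num
    have hspos : 0 < t ^ (1 / 2 : ℝ) := Real.rpow_pos_of_pos htpos _
    rw [div_le_div_iff₀ (by positivity) hspos]
    calc ((V : ℝ) + 1) ^ 2 * 4 ^ V * t ^ (1 / 2 : ℝ)
        ≤ (Real.log t / 4 + 1) ^ 2 * t ^ (1 / 2 : ℝ) * t ^ (1 / 2 : ℝ) := by gcongr
      _ = (Real.log t / 4 + 1) ^ 2 * (t ^ (1 / 2 : ℝ) * t ^ (1 / 2 : ℝ)) := by ring
      _ = (Real.log t / 4 + 1) ^ 2 * t := by rw [← hts]
      _ = 2 * (Real.log t / 4 + 1) ^ 2 * (t / 2) := by ring

end Pool.Agent.J6H40.WG
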