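import Pool.Agent.J6H40.WG.Stm

set_option autoImplicit false

/-!
# Half of the reduced residues are at least `d / 2`
-/

namespace Pool.Agent.J6H40.WG

theorem t_CC : s_CC := by
  intro d hd
  set B := (Finset.range d).filter (fun a => Nat.Coprime a d ∧ d ≤ 2 * a) with hB
  set A := (Finset.range d).filter (fun a => Nat.Coprime a d ∧ ¬ d ≤ 2 * a) with hA
  have h1 : Nat.totient d = B.card + A.card := by
    rw [Nat.totient_eq_card_coprime]
    have e : (Finset.range d).filter (fun a => d.Coprime a) = B ∪ A := by
      ext a
      simp only [hB, hA, Finset.mem_union, Finset.mem_filter, Finset.mem_range]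
      rw [Nat.coprime_comm]
      tauto
    rw [e, Finset.card_union_of_disjoint]
    rw [Finset.disjoint_left]
    intro a ha ha'
    exact (Finset.mem_filter.1 ha').2.2 (Finset.mem_filter.1 ha).2.2
  have h2 : A.card ≤ B.card := by
    refine Finset.card_le_card_of_injOn (fun a => d - a) ?_ ?_
    · intro a ha
      have h3 := Finset.mem_filter.1 (Finset.mem_coe.1 ha)
      have h4 := Finset.mem_range.1 h3.1
      have ha0 : 0 < a := by
        rcases Nat.eq_zero_or_pos a with rfl | h
        · exfalso
          have h5 := h3.2.1
          rw [Nat.coprime_zero_left] at h5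
          omega
        · exact h
      refine Finset.mem_coe.2 (Finset.mem_filter.2 ⟨Finset.mem_range.2 ?_, ?_, ?_⟩)
      · show d - a < d
        omega
      · show Nat.Coprime (d - a) d
        exact (Nat.coprime_self_sub_left h4.le).2 h3.2.1
      · show d ≤ 2 * (d - a)
        have := h3.2.2
        omega
    · intro a ha b hb h
      have h3 := Finset.mem_range.1 (Finset.mem_filter.1 (Finset.mem_coe.1 ha)).1
      have h4 := Finset.mem_range.1 (Finset.mem_filter.1 (Finset.mem_coe.1 hb)).1
      have h5 : d - a = d - b := h
      omega
  omega

end Pool.Agent.J6H40.WG
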