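import Pool.Agent.J6H40.WG.Stm

/-!
Counting rough elements in an arithmetic progression (module WG-CNT).
-/

set_option autoImplicit false

open Finset

namespace Pool.Agent.J6H40.WG

theorem cnt_aux (Q : Finset ℕ) : ∀ (a d u w : ℕ), (∀ q ∈ Q, q.Prime ∧ ¬ q ∣ d) → u ≤ w →
    |(((Finset.Ico u w).filter (fun j => ∀ q ∈ Q, ¬ q ∣ a + j * d)).card : ℝ)
      - ((w : ℝ) - u) * ∏ q ∈ Q, (1 - (q : ℝ)⁻¹)| ≤ 2 ^ Q.card - 1 := by
  classical
  induction Q using Finset.induction_on with
  | empty =>
    intro a d u w _ huw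
    simp only [Finset.notMem_empty, false_imp_iff, implies_true, Finset.filter_true, Nat.card_Ico,
      Finset.prod_empty, mul_one, Finset.card_empty, pow_zero, sub_self]
    rw [Nat.cast_sub huw, sub_self, abs_zero]
  | insert q Q hqQ ih =>
    intro a d u w hQ huw
    obtain ⟨hq, hqd⟩ := hQ q (Finset.mem_insert_self q Q)
    have hq0 : 0 < q := hq.pos
    have hQ' : ∀ p ∈ Q, p.Prime ∧ ¬ p ∣ d := fun p hp => hQ p (Finset.mem_insert_of_mem hp)
    have : Fact q.Prime := ⟨hq⟩
    have hd0 : (d : ZMod q) ≠ 0 := by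
      rwa [Ne, ZMod.natCast_eq_zero_iff]
    set j0 : ℕ := (-(a : ZMod q) * (d : ZMod q)⁻¹).val with hj0
    have hj0q : j0 < q := ZMod.val_lt _
    have hj0c : (j0 : ZMod q) = -(a : ZMod q) * (d : ZMod q)⁻¹ := by
      rw [hj0, ZMod.natCast_val, ZMod.cast_id]
    have hdiv : ∀ j : ℕ, q ∣ a + j * d ↔ j % q = j0 := by
      intro j
      have h1 : q ∣ a + j * d ↔ (j : ZMod q) = (j0 : ZMod q) := by
        rw [← ZMod.natCast_eq_zero_iff, hj0c]
        push_cast
        constructor
        · intro h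
          field_simp
          linear_combination h
        · intro h
          rw [h]
          field_simp
          ring
      rw [h1, ZMod.natCast_eq_natCast_iff', Nat.mod_eq_of_lt hj0q]
    have hQ'' : ∀ p ∈ Q, p.Prime ∧ ¬ p ∣ q * d := by
      intro p hp
      refine ⟨(hQ' p hp).1, fun h => ?_⟩
      rcases ((hQ' p hp).1.dvd_mul).1 h with h | h
      · rw [Nat.prime_dvd_prime_iff_eq (hQ' p hp).1 hq] at h
        exact hqQ (h ▸ hp)
      · exact (hQ' p hp).2 h
    set c : ℕ := q - 1 - j0 with hc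
    set u' : ℕ := (u + c) / q with hu'
    set w' : ℕ := (w + c) / q with hw'
    have huw' : u' ≤ w' := Nat.div_le_div_right (by omega)
    have i1 := ih a d u w hQ' huw
    have i2 := ih (a + j0 * d) (q * d) u' w' hQ'' huw'
    -- the splitting
    have hsplit : ((Finset.Ico u w).filter (fun j => ∀ p ∈ insert q Q, ¬ p ∣ a + j * d)).card +
        ((Finset.Ico u' w').filter (fun i => ∀ p ∈ Q, ¬ p ∣ (a + j0 * d) + i * (q * d))).card =
        ((Finset.Ico u w).filter (fun j => ∀ p ∈ Q, ¬ p ∣ a + j * d)).card := by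
      have e1 : ((Finset.Ico u' w').filter
          (fun i => ∀ p ∈ Q, ¬ p ∣ (a + j0 * d) + i * (q * d))).card =
          (((Finset.Ico u w).filter (fun j => ∀ p ∈ Q, ¬ p ∣ a + j * d)).filter
            (fun j => q ∣ a + j * d)).card := by
        refine Finset.card_bij (fun i _ => j0 + q * i) ?_ ?_ ?_
        · intro i hi
          rw [Finset.mem_filter, Finset.mem_Ico] at hi
          obtain ⟨⟨h1, h2⟩, h3⟩ := hi
          rw [Finset.mem_filter, Finset.mem_filter, Finset.mem_Ico]
          have h1' : (u + c) / q < i + 1 := by omega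
          rw [Nat.div_lt_iff_lt_mul hq0] at h1'
          have h2' : i + 1 ≤ (w + c) / q := h2
          rw [Nat.le_div_iff_mul_le hq0] at h2'
          have e : (i + 1) * q = q * i + q := by ring
          rw [e] at h1' h2'
          refine ⟨⟨⟨by omega, by omega⟩, fun p hp => ?_⟩, ?_⟩
          · have h4 := h3 p hp
            have h5 : a + (j0 + q * i) * d = (a + j0 * d) + i * (q * d) := by ring
            rw [h5]
            exact h4
          · rw [hdiv, Nat.add_mul_mod_self_left, Nat.mod_eq_of_lt hj0q]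
        · intro i _ i' _ h
          have h1 : q * i = q * i' := by
            omega
          exact Nat.eq_of_mul_eq_mul_left hq0 h1
        · intro j hj
          rw [Finset.mem_filter, Finset.mem_filter, Finset.mem_Ico] at hj
          obtain ⟨⟨⟨h1, h2⟩, h3⟩, h4⟩ := hj
          rw [hdiv] at h4
          have h5 : j0 + q * (j / q) = j := by
            rw [← h4]
            exact Nat.mod_add_div j q
          refine ⟨j / q, ?_, h5⟩
          rw [Finset.mem_filter, Finset.mem_Ico]
          have e : (j / q + 1) * q = q * (j / q) + q := by ring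
          refine ⟨⟨?_, ?_⟩, fun p hp => ?_⟩
          · have h6 : (u + c) / q < j / q + 1 := by
              rw [Nat.div_lt_iff_lt_mul hq0, e]
              omega
            exact Nat.lt_succ_iff.1 h6
          · have h6 : j / q + 1 ≤ (w + c) / q := by
              rw [Nat.le_div_iff_mul_le hq0, e]
              omega
            exact h6
          · have h6 := h3 p hp
            have h7 : a + j * d = (a + j0 * d) + (j / q) * (q * d) := by
              conv_lhs => rw [← h5]
              ring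
            rwa [h7] at h6
      have e2 : ((Finset.Ico u w).filter (fun j => ∀ p ∈ insert q Q, ¬ p ∣ a + j * d)) =
          ((Finset.Ico u w).filter (fun j => ∀ p ∈ Q, ¬ p ∣ a + j * d)).filter
            (fun j => ¬ q ∣ a + j * d) := by
        ext j
        simp only [Finset.mem_filter, Finset.mem_insert, forall_eq_or_imp]
        tauto
      rw [e1, e2, add_comm]
      exact Finset.card_filter_add_card_filter_not _
    -- the lengths
    have hq0R : (0 : ℝ) < q := by exact_mod_cast hq0
    have hlen : |((w' : ℝ) - u') - ((w : ℝ) - u) * (q : ℝ)⁻¹| ≤ 1 := by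
      have h1 : (q : ℝ) * u' + ((u + c) % q : ℕ) = u + c := by
        have := Nat.div_add_mod (u + c) q
        rw [← hu'] at this
        exact_mod_cast this
      have h2 : (q : ℝ) * w' + ((w + c) % q : ℕ) = w + c := by
        have := Nat.div_add_mod (w + c) q
        rw [← hw'] at this
        exact_mod_cast this
      have h3 : (((u + c) % q : ℕ) : ℝ) ≤ q := by
        exact_mod_cast (Nat.mod_lt _ hq0).le
      have h4 : (((w + c) % q : ℕ) : ℝ) ≤ q := by
        exact_mod_cast (Nat.mod_lt _ hq0).le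
      have h5 : (0 : ℝ) ≤ (((u + c) % q : ℕ) : ℝ) := Nat.cast_nonneg _
      have h6 : (0 : ℝ) ≤ (((w + c) % q : ℕ) : ℝ) := Nat.cast_nonneg _
      have h7 : ((w' : ℝ) - u') - ((w : ℝ) - u) * (q : ℝ)⁻¹ =
          ((((u + c) % q : ℕ) : ℝ) - (((w + c) % q : ℕ) : ℝ)) * (q : ℝ)⁻¹ := by
        field_simp
        linear_combination h2 - h1
      rw [h7, abs_mul, abs_of_pos (inv_pos.2 hq0R), ← div_eq_mul_inv, div_le_one hq0R, abs_le]
      constructor <;> linarith
    -- the product
    set π : ℝ := ∏ p ∈ Q, (1 - (p : ℝ)⁻¹) with hπ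
    have hfac : ∀ p ∈ Q, 0 ≤ 1 - (p : ℝ)⁻¹ ∧ 1 - (p : ℝ)⁻¹ ≤ 1 := by
      intro p hp
      have h1 : (1 : ℝ) ≤ p := by exact_mod_cast (hQ' p hp).1.one_le
      have h2 : (p : ℝ)⁻¹ ≤ 1 := inv_le_one_of_one_le₀ h1
      have h3 : (0 : ℝ) ≤ (p : ℝ)⁻¹ := by positivity
      constructor <;> linarith
    have hπ0 : 0 ≤ π := Finset.prod_nonneg fun p hp => (hfac p hp).1
    have hπ1 : π ≤ 1 := Finset.prod_le_one (fun p hp => (hfac p hp).1) fun p hp => (hfac p hp).2
    rw [Finset.prod_insert hqQ, Finset.card_insert_of_notMem hqQ, pow_succ]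
    have hs : (((Finset.Ico u w).filter (fun j => ∀ p ∈ insert q Q, ¬ p ∣ a + j * d)).card : ℝ) =
        (((Finset.Ico u w).filter (fun j => ∀ p ∈ Q, ¬ p ∣ a + j * d)).card : ℝ) -
        (((Finset.Ico u' w').filter
          (fun i => ∀ p ∈ Q, ¬ p ∣ (a + j0 * d) + i * (q * d))).card : ℝ) := by
      rw [← hsplit]
      push_cast
      ring
    rw [hs]
    have h8 : |(((w' : ℝ) - u') - ((w : ℝ) - u) * (q : ℝ)⁻¹) * π| ≤ 1 := by
      rw [abs_mul, abs_of_nonneg hπ0]
      calc _ ≤ 1 * π := mul_le_mul_of_nonneg_right hlen hπ0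
        _ ≤ 1 := by rw [one_mul]; exact hπ1
    rw [abs_le] at i1 i2 h8 ⊢
    constructor
    · nlinarith [i1.1, i2.2, h8.1, h8.2]
    · nlinarith [i1.2, i2.1, h8.1, h8.2]

theorem t_CNT : s_CNT := by
  classical
  intro d a v u w hd hco huw
  set Q : Finset ℕ := (Finset.Icc 1 v).filter (fun q => q.Prime ∧ ¬ q ∣ d) with hQ
  have h1 := cnt_aux Q a d u w (fun q hq => (Finset.mem_filter.1 hq).2) huw
  have h2 : ((Finset.Ico u w).filter (fun j => ∀ q ∈ Finset.Icc 1 v, q.Prime → ¬ q ∣ a + j * d)) =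
      (Finset.Ico u w).filter (fun j => ∀ q ∈ Q, ¬ q ∣ a + j * d) := by
    refine Finset.filter_congr fun j _ => ?_
    constructor
    · intro h q hq
      rw [hQ, Finset.mem_filter] at hq
      exact h q hq.1 hq.2.1
    · intro h q hq hp hdiv
      by_cases hqd : q ∣ d
      · have h3 : q ∣ a := (Nat.dvd_add_left (Dvd.dvd.mul_left hqd j)).1 hdiv
        have h4 : q ∣ Nat.gcd a d := Nat.dvd_gcd h3 hqd
        rw [hco] at h4
        exact hp.one_lt.ne' (Nat.dvd_one.1 h4)
      · exact h q (by rw [hQ, Finset.mem_filter]; exact ⟨hq, hp, hqd⟩) hdiv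
  rw [h2]
  have h3 : Dn d v = ∏ q ∈ Q, (1 - (q : ℝ)⁻¹) := rfl
  rw [h3]
  refine h1.trans ?_
  have h4 : Q.card ≤ v := by
    refine (Finset.card_filter_le _ _).trans ?_
    simp
  have h5 : (2 : ℝ) ^ Q.card ≤ 2 ^ v := pow_le_pow_right₀ (by norm_num) h4
  have h6 : (2 : ℝ) ^ v ≤ 4 ^ v := pow_le_pow_left₀ (by norm_num) (by norm_num) v
  linarith

end Pool.Agent.J6H40.WG
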