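import Pool.Agent.J6H40.WG.Stm

/-!
# DT: the density tends to zero
-/

set_option autoImplicit false

open MeasureTheory Filter
open scoped Topology

namespace Pool.Agent.J6H40.WG

theorem t_DT (h1 : s_WB) : s_DT := by
  intro z hz δ hδ
  have hlog : Tendsto (fun m : ℕ => Real.log (m : ℝ)) atTop atTop :=
    Real.tendsto_log_atTop.comp tendsto_natCast_atTop_atTop
  have h2 : ∀ᶠ L : ℝ in atTop, Real.log L / 4 + 1 ≤ δ * L := by
    have h3 := Real.isLittleO_log_id_atTop.def hδ
    filter_upwards [h3, eventually_ge_atTop (2 / δ), eventually_gt_atTop 0] with L hL h4 h5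
    have h6 : Real.log L ≤ δ * L := by
      have h7 := (le_abs_self (Real.log L)).trans hL
      rwa [Real.norm_eq_abs, id, abs_of_pos h5] at h7
    have h8 : 2 ≤ δ * L := by
      rw [div_le_iff₀ hδ] at h4
      linarith
    linarith
  filter_upwards [hz.2, hlog.eventually h2, hlog.eventually_gt_atTop 0] with m h3 h4 h5
  obtain ⟨h6, h7⟩ := h1.1 (z m)
  constructor
  · exact div_nonneg (by linarith) h5.le
  · rw [div_le_iff₀ h5]
    linarith

end Pool.Agent.J6H40.WG
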