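import Pool.Agent.J6H40.WG.Stm

/-!
# WG-EXP: an elementary inequality
-/

set_option autoImplicit false

namespace Pool.Agent.J6H40.WG

theorem t_EXP : s_EXP := by
  intro η hη
  have h1 : (0 : ℝ) < 1 + η := by linarith
  refine ⟨min (1 / 2) (η / (1 + η)), lt_min (by norm_num) (div_pos hη h1), min_le_left _ _, ?_⟩
  intro p hp0 hp
  have hp2 : p ≤ 1 / 2 := hp.trans (min_le_left _ _)
  have hp3 : p ≤ η / (1 + η) := hp.trans (min_le_right _ _)
  rw [le_div_iff₀ h1] at hp3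
  have hpos : (0 : ℝ) < 1 - p := by linarith
  have hlog := Real.one_sub_inv_le_log_of_pos hpos
  have hinv : (1 - p)⁻¹ ≤ 1 + η := by
    rw [inv_le_comm₀ hpos h1, inv_eq_one_div, div_le_iff₀ h1]
    nlinarith
  have h2 : 1 - (1 - p)⁻¹ = -(p * (1 - p)⁻¹) := by
    field_simp
    ring
  have h3 : p * (1 - p)⁻¹ ≤ p * (1 + η) := mul_le_mul_of_nonneg_left hinv hp0
  rw [← Real.le_log_iff_exp_le hpos]
  rw [h2] at hlog
  linarith

end Pool.Agent.J6H40.WG
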