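import Pool.Agent.J6H40.WG.Stm

set_option autoImplicit false
set_option linter.unusedSectionVars false

/-!
# GC: the weights satisfy the moment hypotheses
-/

open MeasureTheory Filter

namespace Pool.Agent.J6H40.WG

namespace GC

variable {Ω : Type} [mΩ : MeasurableSpace Ω] {μ : Measure Ω} [IsProbabilityMeasure μ]
  {ℱ : Filtration ℕ mΩ} {S : ℕ → Set Ω}

/-- the event that the bounds hold up to the time `m` -/
def V (μ : Measure Ω) (ℱ : Filtration ℕ mΩ) (S : ℕ → Set Ω) (U : Finset ℕ) (p : ℕ → ℝ) (m : ℕ) :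
    Set Ω := {ω | ∀ k ∈ U, k ≤ m → cp μ ℱ S k ω ≤ p k}

theorem cp_meas (μ : Measure Ω) (ℱ : Filtration ℕ mΩ) (S : ℕ → Set Ω) {k m : ℕ} (h : k ≤ m) :
    Measurable[ℱ (m - 1)] (cp μ ℱ S k) := by
  have h1 : StronglyMeasurable[ℱ (k - 1)] (cp μ ℱ S k) := stronglyMeasurable_condExp
  exact (h1.mono (ℱ.mono (by omega))).measurable

theorem V_meas (U : Finset ℕ) (p : ℕ → ℝ) (m : ℕ) : MeasurableSet[ℱ (m - 1)] (V μ ℱ S U p m) := by
  have h1 : V μ ℱ S U p m = ⋂ k ∈ U, {ω | k ≤ m → cp μ ℱ S k ω ≤ p k} := by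
    ext ω
    simp [V]
  rw [h1]
  refine Finset.measurableSet_biInter _ fun k _ => ?_
  by_cases hk : k ≤ m
  · simp only [hk, true_imp_iff]
    exact measurableSet_le (cp_meas μ ℱ S hk) (@measurable_const _ _ _ (ℱ (m - 1)) _)
  · simp only [hk, false_imp_iff]
    exact MeasurableSet.univ

open Classical in
/-- the inverse of the conditional probability of the complement, on the event `V` -/
noncomputable def h (μ : Measure Ω) (ℱ : Filtration ℕ mΩ) (S : ℕ → Set Ω) (U : Finset ℕ)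
    (p : ℕ → ℝ) (m : ℕ) (ω : Ω) : ℝ := if ω ∈ V μ ℱ S U p m then (1 - cp μ ℱ S m ω)⁻¹ else 0

theorem h_meas (U : Finset ℕ) (p : ℕ → ℝ) (m : ℕ) : Measurable[ℱ (m - 1)] (h μ ℱ S U p m) := by
  classical
  unfold h
  refine Measurable.ite (V_meas U p m) ?_ measurable_const
  exact (measurable_const.sub (cp_meas μ ℱ S le_rfl)).inv

variable {U : Finset ℕ} {p : ℕ → ℝ} {m : ℕ}

theorem V_bound (hm : m ∈ U) (hp : p m ≤ 1 / 2) {ω : Ω} (hω : ω ∈ V μ ℱ S U p m) :
    cp μ ℱ S m ω ≤ p m ∧ 0 < 1 - cp μ ℱ S m ω ∧ (1 - cp μ ℱ S m ω)⁻¹ ≤ 2 ∧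
      (1 - cp μ ℱ S m ω)⁻¹ ≤ (1 - p m)⁻¹ := by
  have h1 := hω m hm le_rfl
  have h2 : 1 / 2 ≤ 1 - cp μ ℱ S m ω := by linarith
  refine ⟨h1, by linarith, ?_, inv_anti₀ (by linarith) (by linarith)⟩
  have := inv_anti₀ (by norm_num : (0 : ℝ) < 1 / 2) h2
  norm_num at this
  linarith

theorem h_bound (hm : m ∈ U) (hp : p m ≤ 1 / 2) (ω : Ω) :
    0 ≤ h μ ℱ S U p m ω ∧ h μ ℱ S U p m ω ≤ 2 := by
  classical
  unfold h
  split_ifs with hω
  · obtain ⟨-, h2, h3, -⟩ := V_bound hm hp hω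
    exact ⟨(inv_pos.2 h2).le, h3⟩
  · norm_num

open Classical in
/-- the indicator of the complement of `V` -/
noncomputable def e (μ : Measure Ω) (ℱ : Filtration ℕ mΩ) (S : ℕ → Set Ω) (U : Finset ℕ)
    (p : ℕ → ℝ) (m : ℕ) (ω : Ω) : ℝ := if ω ∈ V μ ℱ S U p m then 0 else 1

theorem e_meas (U : Finset ℕ) (p : ℕ → ℝ) (m : ℕ) : Measurable[ℱ (m - 1)] (e μ ℱ S U p m) := by
  classical
  unfold e
  exact Measurable.ite (V_meas U p m) measurable_const measurable_const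

theorem e_bound (ω : Ω) : 0 ≤ e μ ℱ S U p m ω ∧ e μ ℱ S U p m ω ≤ 1 := by
  unfold e
  split_ifs <;> norm_num

theorem gw_eq (ω : Ω) : gw μ ℱ S U p m ω = e μ ℱ S U p m ω + h μ ℱ S U p m ω -
    h μ ℱ S U p m ω * (S m).indicator (fun _ => (1 : ℝ)) ω := by
  classical
  unfold gw e h
  by_cases hV : ω ∈ V μ ℱ S U p m
  · have hV' : ∀ k ∈ U, k ≤ m → cp μ ℱ S k ω ≤ p k := hV
    rw [if_pos hV', if_pos hV, if_pos hV]
    by_cases hS : ω ∈ S m
    · rw [if_pos hS, Set.indicator_of_mem hS]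
      ring
    · rw [if_neg hS, Set.indicator_of_notMem hS]
      ring
  · have hV' : ¬ ∀ k ∈ U, k ≤ m → cp μ ℱ S k ω ≤ p k := hV
    rw [if_neg hV', if_neg hV, if_neg hV]
    ring

theorem gw_sq (ω : Ω) : gw μ ℱ S U p m ω ^ 2 = e μ ℱ S U p m ω + h μ ℱ S U p m ω ^ 2 -
    h μ ℱ S U p m ω ^ 2 * (S m).indicator (fun _ => (1 : ℝ)) ω := by
  classical
  unfold gw e h
  by_cases hV : ω ∈ V μ ℱ S U p m
  · have hV' : ∀ k ∈ U, k ≤ m → cp μ ℱ S k ω ≤ p k := hV
    rw [if_pos hV', if_pos hV, if_pos hV]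
    by_cases hS : ω ∈ S m
    · rw [if_pos hS, Set.indicator_of_mem hS]
      ring
    · rw [if_neg hS, Set.indicator_of_notMem hS]
      ring
  · have hV' : ¬ ∀ k ∈ U, k ≤ m → cp μ ℱ S k ω ≤ p k := hV
    rw [if_neg hV', if_neg hV, if_neg hV]
    ring

theorem int_of (f : Ω → ℝ) (C : ℝ) (hf : Measurable f) (hC : ∀ ω, |f ω| ≤ C) :
    Integrable f μ :=
  Integrable.of_bound hf.aestronglyMeasurable C (Filter.Eventually.of_forall fun ω => hC ω)

end GC

open GC in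
theorem t_GC (h1 : s_PULL) : s_GC := by
  intro Ω mΩ μ _ ℱ S hS U p hU m hm
  obtain ⟨hm1, hp0, hp⟩ := hU m hm
  have hle : ℱ (m - 1) ≤ mΩ := ℱ.le _
  have hhm : Measurable (h μ ℱ S U p m) := (h_meas U p m).mono hle le_rfl
  have hem : Measurable (e μ ℱ S U p m) := (e_meas U p m).mono hle le_rfl
  have hind : Measurable (fun ω => (S m).indicator (fun _ => (1 : ℝ)) ω) :=
    (measurable_const.indicator (ℱ.le m _ (hS m)))
  have hcpi : Integrable (cp μ ℱ S m) μ := integrable_condExp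
  -- the basic identity
  have key : ∀ (f : Ω → ℝ) (g : Ω → ℝ) (Cf Cg : ℝ), StronglyMeasurable[ℱ (m - 1)] f →
      (∀ ω, |f ω| ≤ Cf) → Measurable[ℱ (m - 1)] g → (∀ ω, |g ω| ≤ Cg) →
      ∫ ω, f ω * (e μ ℱ S U p m ω + g ω - g ω * (S m).indicator (fun _ => (1 : ℝ)) ω) ∂μ =
      ∫ ω, f ω * (e μ ℱ S U p m ω + g ω * (1 - cp μ ℱ S m ω)) ∂μ := by
    intro f g Cf Cg hf hfC hg hgC
    have hgs : StronglyMeasurable[ℱ (m - 1)] g := hg.stronglyMeasurable
    have hfg : StronglyMeasurable[ℱ (m - 1)] (fun ω => f ω * g ω) := hf.mul hgs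
    have hfgC : ∀ ω, |f ω * g ω| ≤ Cf * Cg := by
      intro ω
      rw [abs_mul]
      exact mul_le_mul (hfC ω) (hgC ω) (abs_nonneg _) ((abs_nonneg _).trans (hfC ω))
    have hpull := h1 Ω μ ℱ S hS m (fun ω => f ω * g ω) (Cf * Cg) hfg hfgC
    have hfm : Measurable f := (hf.measurable).mono hle le_rfl
    have hgm : Measurable g := hg.mono hle le_rfl
    have i1 : Integrable (fun ω => f ω * (e μ ℱ S U p m ω + g ω)) μ := by
      refine int_of _ (Cf * (1 + Cg)) (hfm.mul (hem.add hgm)) fun ω => ?_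
      rw [abs_mul]
      have h2 : |e μ ℱ S U p m ω + g ω| ≤ 1 + Cg := by
        refine (abs_add_le _ _).trans (add_le_add ?_ (hgC ω))
        rw [abs_of_nonneg (e_bound ω).1]
        exact (e_bound ω).2
      exact mul_le_mul (hfC ω) h2 (abs_nonneg _) ((abs_nonneg _).trans (hfC ω))
    have i2 : Integrable (fun ω => f ω * g ω * (S m).indicator (fun _ => (1 : ℝ)) ω) μ := by
      refine int_of _ (Cf * Cg * 1) ((hfm.mul hgm).mul hind) fun ω => ?_
      rw [abs_mul]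
      refine mul_le_mul (hfgC ω) ?_ (abs_nonneg _) ((abs_nonneg _).trans (hfgC ω))
      by_cases hS' : ω ∈ S m
      · rw [Set.indicator_of_mem hS', abs_one]
      · rw [Set.indicator_of_notMem hS', abs_zero]
        norm_num
    have i3 : Integrable (fun ω => f ω * g ω * cp μ ℱ S m ω) μ :=
      hcpi.bdd_mul (hfm.mul hgm).aestronglyMeasurable (Filter.Eventually.of_forall hfgC)
    calc ∫ ω, f ω * (e μ ℱ S U p m ω + g ω - g ω * (S m).indicator (fun _ => (1 : ℝ)) ω) ∂μ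
        = ∫ ω, (f ω * (e μ ℱ S U p m ω + g ω) -
            f ω * g ω * (S m).indicator (fun _ => (1 : ℝ)) ω) ∂μ := by
          congr 1
          funext ω
          ring
      _ = ∫ ω, f ω * (e μ ℱ S U p m ω + g ω) ∂μ -
            ∫ ω, f ω * g ω * (S m).indicator (fun _ => (1 : ℝ)) ω ∂μ := integral_sub i1 i2
      _ = ∫ ω, f ω * (e μ ℱ S U p m ω + g ω) ∂μ -
            ∫ ω, f ω * g ω * cp μ ℱ S m ω ∂μ := by rw [hpull]
      _ = ∫ ω, (f ω * (e μ ℱ S U p m ω + g ω) - f ω * g ω * cp μ ℱ S m ω) ∂μ :=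
          (integral_sub i1 i3).symm
      _ = _ := by
          congr 1
          funext ω
          ring
  have hhb : ∀ ω, |h μ ℱ S U p m ω| ≤ 2 := fun ω => by
    rw [abs_of_nonneg (h_bound hm hp ω).1]
    exact (h_bound hm hp ω).2
  refine ⟨?_, ?_, ?_, ?_⟩
  · -- measurability
    have hmono : ℱ (m - 1) ≤ ℱ m := ℱ.mono (by omega)
    have hh' : Measurable[ℱ m] (h μ ℱ S U p m) := (h_meas U p m).mono hmono le_rfl
    have he' : Measurable[ℱ m] (e μ ℱ S U p m) := (e_meas U p m).mono hmono le_rfl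
    have hi' : Measurable[ℱ m] (fun ω => (S m).indicator (fun _ => (1 : ℝ)) ω) :=
      (@measurable_const _ _ _ (ℱ m) (1 : ℝ)).indicator (hS m)
    have hg : Measurable[ℱ m] (gw μ ℱ S U p m) := by
      have : gw μ ℱ S U p m = fun ω => e μ ℱ S U p m ω + h μ ℱ S U p m ω -
          h μ ℱ S U p m ω * (S m).indicator (fun _ => (1 : ℝ)) ω := funext fun ω => gw_eq ω
      rw [this]
      exact (he'.add hh').sub (hh'.mul hi')
    exact hg.stronglyMeasurable
  · intro ω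
    classical
    unfold gw
    split_ifs with h2 h3
    · norm_num
    · obtain ⟨-, h4, h5, -⟩ := V_bound (μ := μ) (ℱ := ℱ) (S := S) hm hp (ω := ω) h2
      exact ⟨(inv_pos.2 h4).le, h5⟩
    · norm_num
  · intro f hf hf0 hfC
    obtain ⟨C, hC⟩ := hfC
    have hfC' : ∀ ω, |f ω| ≤ C := fun ω => by
      rw [abs_of_nonneg (hf0 ω)]
      exact hC ω
    simp only [gw_eq]
    rw [key f (h μ ℱ S U p m) C 2 hf hfC' (h_meas U p m) hhb]
    congr 1
    funext ω
    classical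
    unfold e h
    split_ifs with h2
    · obtain ⟨-, h4, -, -⟩ := V_bound (μ := μ) (ℱ := ℱ) (S := S) hm hp h2
      rw [zero_add, inv_mul_cancel₀ h4.ne', mul_one]
    · ring
  · intro f hf hf0 hfC
    obtain ⟨C, hC⟩ := hfC
    have hfC' : ∀ ω, |f ω| ≤ C := fun ω => by
      rw [abs_of_nonneg (hf0 ω)]
      exact hC ω
    have hfm : Measurable f := (hf.measurable).mono hle le_rfl
    simp only [gw_sq]
    rw [key f (fun ω => h μ ℱ S U p m ω ^ 2) C 4 hf hfC' ((h_meas U p m).pow_const 2) fun ω => by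
      rw [abs_of_nonneg (sq_nonneg _)]
      have := h_bound (μ := μ) (ℱ := ℱ) (S := S) hm hp ω
      nlinarith [this.1, this.2]]
    rw [← integral_const_mul]
    have hpt : ∀ ω, f ω * (e μ ℱ S U p m ω + h μ ℱ S U p m ω ^ 2 * (1 - cp μ ℱ S m ω)) =
        f ω * (e μ ℱ S U p m ω + h μ ℱ S U p m ω) := by
      intro ω
      classical
      unfold e h
      split_ifs with h2
      · obtain ⟨-, h4, -, -⟩ := V_bound (μ := μ) (ℱ := ℱ) (S := S) hm hp h2
        have h5 : (1 - cp μ ℱ S m ω)⁻¹ ^ 2 * (1 - cp μ ℱ S m ω) = (1 - cp μ ℱ S m ω)⁻¹ := by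
          rw [sq, mul_assoc, inv_mul_cancel₀ h4.ne', mul_one]
        rw [h5]
      · ring
    simp only [hpt]
    refine integral_mono ?_ ?_ fun ω => ?_
    · refine int_of _ (C * 3) (hfm.mul (hem.add hhm)) fun ω => ?_
      rw [abs_mul]
      have h2 : |e μ ℱ S U p m ω + h μ ℱ S U p m ω| ≤ 3 := by
        have h3 := e_bound (μ := μ) (ℱ := ℱ) (S := S) (U := U) (p := p) (m := m) ω
        have h4 := h_bound (μ := μ) (ℱ := ℱ) (S := S) hm hp ω
        rw [abs_of_nonneg (by linarith)]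
        linarith
      exact mul_le_mul (hfC' ω) h2 (abs_nonneg _) ((abs_nonneg _).trans (hfC' ω))
    · exact (int_of f C hfm hfC').const_mul _
    · dsimp only
      rw [mul_comm]
      refine mul_le_mul_of_nonneg_right ?_ (hf0 ω)
      classical
      have h6 : 1 ≤ (1 - p m)⁻¹ := by
        rw [one_le_inv₀ (by linarith)]
        linarith
      unfold e h
      split_ifs with h2
      · obtain ⟨-, -, -, h5⟩ := V_bound (μ := μ) (ℱ := ℱ) (S := S) hm hp h2
        rw [zero_add]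
        exact h5
      · rw [add_zero]
        exact h6

end Pool.Agent.J6H40.WG
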