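import Pool.Agent.J6H40.WG.Stm

/-! # WG-GM: moments of products of weights -/

set_option autoImplicit false

open MeasureTheory Filter
open scoped Topology

namespace Pool.Agent.J6H40.WG

namespace GMaux

theorem prod_bd {Ω : Type} (g : ℕ → Ω → ℝ) (T : Finset ℕ)
    (h : ∀ m ∈ T, ∀ ω, 0 ≤ g m ω ∧ g m ω ≤ 2) (ω : Ω) :
    0 ≤ ∏ m ∈ T, g m ω ∧ ∏ m ∈ T, g m ω ≤ 2 ^ T.card := by
  refine ⟨Finset.prod_nonneg fun m hm => (h m hm ω).1, ?_⟩
  calc ∏ m ∈ T, g m ω ≤ ∏ _m ∈ T, (2 : ℝ) :=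
        Finset.prod_le_prod (fun m hm => (h m hm ω).1) (fun m hm => (h m hm ω).2)
    _ = 2 ^ T.card := by rw [Finset.prod_const]

theorem prod_sm {Ω : Type} [mΩ : MeasurableSpace Ω] (ℱ : Filtration ℕ mΩ) (g : ℕ → Ω → ℝ)
    (T : Finset ℕ) (n : ℕ) (h : ∀ m ∈ T, m ≤ n ∧ StronglyMeasurable[ℱ m] (g m)) :
    StronglyMeasurable[ℱ n] (fun ω => ∏ m ∈ T, g m ω) :=
  Finset.stronglyMeasurable_fun_prod T fun m hm => (h m hm).2.mono (ℱ.mono (h m hm).1)

end GMaux

open GMaux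

theorem t_GM : s_GM := by
  intro Ω mΩ μ _ ℱ g c T
  induction T using Finset.induction_on_max with
  | empty =>
    intro _ _ _
    refine ⟨by simp, fun A hA => ?_⟩
    rw [Finset.subset_empty.mp hA]
    simp
  | insert M T' hlt ih =>
    intro h1 h2 h3
    obtain ⟨ih1, ih2⟩ := ih (fun m hm => h1 m (Finset.mem_insert_of_mem hm))
      (fun m hm => h2 m (Finset.mem_insert_of_mem hm))
      (fun m hm => h3 m (Finset.mem_insert_of_mem hm))
    have hM := h1 M (Finset.mem_insert_self _ _)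
    have hg2 := h2 M (Finset.mem_insert_self _ _)
    have hg3 := h3 M (Finset.mem_insert_self _ _)
    have hMT : M ∉ T' := fun h => lt_irrefl _ (hlt M h)
    have hbd : ∀ B : Finset ℕ, B ⊆ T' → ∀ ω,
        0 ≤ ∏ m ∈ B, g m ω ∧ ∏ m ∈ B, g m ω ≤ 2 ^ B.card := fun B hB =>
      prod_bd g B fun m hm => (h1 m (Finset.mem_insert_of_mem (hB hm))).2.2.1
    have hsm : ∀ B : Finset ℕ, B ⊆ T' →
        StronglyMeasurable[ℱ (M - 1)] (fun ω => ∏ m ∈ B, g m ω) := fun B hB =>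
      prod_sm ℱ g B (M - 1) fun m hm =>
        ⟨Nat.le_sub_one_of_lt (hlt m (hB hm)), (h1 m (Finset.mem_insert_of_mem (hB hm))).2.1⟩
    have hff : ∀ B : Finset ℕ, B ⊆ T' →
        StronglyMeasurable[ℱ (M - 1)] (fun ω => (∏ m ∈ T', g m ω) * ∏ m ∈ B, g m ω) ∧
        (∀ ω, 0 ≤ (∏ m ∈ T', g m ω) * ∏ m ∈ B, g m ω) ∧
        ∃ C : ℝ, ∀ ω, (∏ m ∈ T', g m ω) * ∏ m ∈ B, g m ω ≤ C := fun B hB =>
      ⟨(hsm T' subset_rfl).mul (hsm B hB),
        fun ω => mul_nonneg (hbd T' subset_rfl ω).1 (hbd B hB ω).1,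
        2 ^ T'.card * 2 ^ B.card, fun ω =>
          mul_le_mul (hbd T' subset_rfl ω).2 (hbd B hB ω).2 (hbd B hB ω).1 (by positivity)⟩
    constructor
    · have h := hg2 (fun ω => ∏ m ∈ T', g m ω) (hsm T' subset_rfl)
        (fun ω => (hbd T' subset_rfl ω).1) ⟨_, fun ω => (hbd T' subset_rfl ω).2⟩
      rw [← ih1, ← h]
      refine integral_congr_ae (Eventually.of_forall fun ω => ?_)
      simp only
      rw [Finset.prod_insert hMT, mul_comm]
    · intro A hA
      by_cases hMA : M ∈ A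
      · have hA' : A.erase M ⊆ T' := by
          intro m hm
          rw [Finset.mem_erase] at hm
          exact (Finset.mem_insert.mp (hA hm.2)).resolve_left hm.1
        obtain ⟨k1, k2, k3⟩ := hff (A.erase M) hA'
        have h := hg3 _ k1 k2 k3
        have e1 : ∫ ω, (∏ m ∈ insert M T', g m ω) * (∏ m ∈ A, g m ω) ∂μ =
            ∫ ω, ((∏ m ∈ T', g m ω) * ∏ m ∈ A.erase M, g m ω) * g M ω ^ 2 ∂μ := by
          refine integral_congr_ae (Eventually.of_forall fun ω => ?_)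
          simp only
          rw [Finset.prod_insert hMT, ← Finset.mul_prod_erase A (fun m => g m ω) hMA]
          ring
        rw [e1, ← Finset.mul_prod_erase A c hMA]
        exact h.trans (mul_le_mul_of_nonneg_left (ih2 _ hA') hM.2.2.2)
      · have hA' : A ⊆ T' := by
          intro m hm
          refine (Finset.mem_insert.mp (hA hm)).resolve_left fun h => hMA (h ▸ hm)
        obtain ⟨k1, k2, k3⟩ := hff A hA'
        have h := hg2 _ k1 k2 k3
        have e1 : ∫ ω, (∏ m ∈ insert M T', g m ω) * (∏ m ∈ A, g m ω) ∂μ =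
            ∫ ω, ((∏ m ∈ T', g m ω) * ∏ m ∈ A, g m ω) * g M ω ∂μ := by
          refine integral_congr_ae (Eventually.of_forall fun ω => ?_)
          simp only
          rw [Finset.prod_insert hMT]
          ring
        rw [e1, h]
        exact ih2 A hA'

end Pool.Agent.J6H40.WG
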