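import Pool.Agent.J6H40.WG.Stm

set_option autoImplicit false

/-!
# Module P1 of project WG: part 1 of the theorem (Borel-Cantelli)
-/

open MeasureTheory Filter
open scoped Topology

namespace Pool.Agent.J6H40.WG

namespace P1

/-- `2 log d ≤ φ(d) / 2 * d ^ (-t)` for large `d`, if `t < 1` -/
theorem totient_large (h3 : s_WB) {t : ℝ} (ht : t < 1) :
    ∀ᶠ d : ℕ in atTop, 2 * Real.log d ≤ (Nat.totient d : ℝ) / 2 * (d : ℝ) ^ (-t) := by
  have hs : 0 < (1 - t) / 2 := by linarith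
  have hl2 : 0 < Real.log 2 := Real.log_pos (by norm_num)
  have h1 : ∀ᶠ x : ℝ in atTop, Real.log x ≤ x ^ ((1 - t) / 2) * (1 / 16) := by
    have h := (isLittleO_log_rpow_atTop hs).bound (show (0 : ℝ) < 1 / 16 by norm_num)
    filter_upwards [h, eventually_ge_atTop 1] with x hx hx1
    rw [Real.norm_of_nonneg (Real.log_nonneg hx1), Real.norm_of_nonneg (by positivity)] at hx
    linarith
  have h2 : ∀ᶠ x : ℝ in atTop, (1 : ℝ) ≤ Real.log x :=
    Real.tendsto_log_atTop.eventually_ge_atTop 1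
  have h4 := tendsto_natCast_atTop_atTop (R := ℝ) |>.eventually (h1.and h2)
  filter_upwards [h4, eventually_ge_atTop 1] with d hd hd1
  obtain ⟨hd2, hd3⟩ := hd
  have hd0 : (0 : ℝ) < d := by exact_mod_cast hd1
  have hφ0 : (0 : ℝ) < Nat.totient d := by exact_mod_cast Nat.totient_pos.2 hd1
  have hw := h3.2 d hd1
  rw [div_le_iff₀ hφ0] at hw
  -- `d ≤ (log d / log 2 + 1) φ ≤ 3 log d φ`
  have hl : Real.log d / Real.log 2 + 1 ≤ 3 * Real.log d := by
    have h5 : (0.5 : ℝ) ≤ Real.log 2 := by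
      have := Real.log_two_gt_d9
      linarith
    have h6 : Real.log d / Real.log 2 ≤ Real.log d / 0.5 :=
      div_le_div_of_nonneg_left (by linarith) (by norm_num) h5
    have h7 : Real.log d / 0.5 = 2 * Real.log d := by
      rw [div_eq_iff (by norm_num)]
      ring
    linarith
  have hφ : (d : ℝ) ≤ 3 * Real.log d * Nat.totient d :=
    hw.trans (mul_le_mul_of_nonneg_right hl hφ0.le)
  have hlog0 : 0 < Real.log d := by linarith
  have hpow : (d : ℝ) ^ ((1 - t) / 2) * (d : ℝ) ^ ((1 - t) / 2) = d * (d : ℝ) ^ (-t) := by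
    rw [← Real.rpow_add hd0, show (1 - t) / 2 + (1 - t) / 2 = 1 + -t by ring,
      Real.rpow_add hd0, Real.rpow_one]
  have hp0 : 0 < (d : ℝ) ^ ((1 - t) / 2) := Real.rpow_pos_of_pos hd0 _
  have hq0 : 0 < (d : ℝ) ^ (-t) := Real.rpow_pos_of_pos hd0 _
  -- `256 log² d ≤ d * d ^ (-t) ≤ 3 log d φ d ^ (-t)`
  have h8 : 16 * Real.log d * (16 * Real.log d) ≤ d * (d : ℝ) ^ (-t) := by
    rw [← hpow]
    exact mul_le_mul (by linarith) (by linarith) (by positivity) hp0.le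
  have h9 : d * (d : ℝ) ^ (-t) ≤ 3 * Real.log d * Nat.totient d * (d : ℝ) ^ (-t) :=
    mul_le_mul_of_nonneg_right hφ hq0.le
  have h10 : Real.log d * (256 * Real.log d) ≤
      Real.log d * (3 * Nat.totient d * (d : ℝ) ^ (-t)) := by nlinarith
  have h11 := le_of_mul_le_mul_left h10 hlog0
  nlinarith [mul_pos hφ0 hq0]

end P1

/-- **Module P1.** -/
theorem t_P1 (h1 : s_DISD) (h2 : s_GE) (h3 : s_WB) : s_P1 := by
  intro z hz Ω mΩ μ _ ℱ S hM c hc hc1
  obtain ⟨η, hη⟩ : ∃ η : ℝ, η = (1 - c) / 8 := ⟨_, rfl⟩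
  have hη0 : 0 < η := by rw [hη]; linarith
  have hη1 : η ≤ 1 := by rw [hη]; linarith
  have ht : (1 + η) ^ 3 * c < 1 := by
    have h4 : (1 + η) ^ 3 ≤ 1 + 7 * η := by
      have h5 : η ^ 2 ≤ η := by nlinarith
      have h6 : η ^ 3 ≤ η := by nlinarith
      nlinarith
    have h5 : (1 + 7 * η) * c < 1 := by
      rw [hη]
      nlinarith
    exact (mul_le_mul_of_nonneg_right h4 hc.le).trans_lt h5
  -- the probability is summable
  have key : ∀ N : ℕ, ∀ᵐ ω ∂μ, ∀ᶠ d : ℕ in atTop,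
      ω ∉ {ω | (∀ a : ℕ, a < d → d ≤ 2 * a → Nat.Coprime a d →
        ∃ m ∈ T z d a 1 (X c d), ω ∈ S m) ∧ ω ∈ Up μ ℱ S z η N} := by
    intro N
    have hev : ∀ᶠ d : ℕ in atTop,
        μ.real {ω | (∀ a : ℕ, a < d → d ≤ 2 * a → Nat.Coprime a d →
          ∃ m ∈ T z d a 1 (X c d), ω ∈ S m) ∧ ω ∈ Up μ ℱ S z η N} ≤ ((d : ℝ) ^ 2)⁻¹ := by
      filter_upwards [h1 z hz Ω μ ℱ S hM.adapted c η hc hη0, P1.totient_large h3 ht,
        eventually_ge_atTop (2 * N), eventually_ge_atTop 1] with d hd hd2 hdN hd1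
      refine (hd N hdN).trans ?_
      have hd0 : (0 : ℝ) < d := by exact_mod_cast hd1
      calc Real.exp (-((Nat.totient d : ℝ) / 2 * (d : ℝ) ^ (-((1 + η) ^ 3 * c))))
          ≤ Real.exp (-(2 * Real.log d)) := Real.exp_le_exp.2 (by linarith)
        _ = ((d : ℝ) ^ 2)⁻¹ := by
            rw [Real.exp_neg, two_mul, Real.exp_add, Real.exp_log hd0, sq]
    obtain ⟨D, hD⟩ := eventually_atTop.1 hev
    have hsum : Summable fun i : ℕ => (((i + D : ℕ) : ℝ) ^ 2)⁻¹ :=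
      (summable_nat_add_iff D).2 (Real.summable_nat_pow_inv.2 (by norm_num : 1 < 2))
    have hne : ∑' i : ℕ, μ {ω | (∀ a : ℕ, a < i + D → i + D ≤ 2 * a → Nat.Coprime a (i + D) →
          ∃ m ∈ T z (i + D) a 1 (X c (i + D)), ω ∈ S m) ∧ ω ∈ Up μ ℱ S z η N} ≠ ⊤ := by
      refine ne_top_of_le_ne_top hsum.tsum_ofReal_ne_top (ENNReal.tsum_le_tsum fun i => ?_)
      rw [← ofReal_measureReal]
      exact ENNReal.ofReal_le_ofReal (hD (i + D) (Nat.le_add_left _ _))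
    filter_upwards [ae_eventually_notMem hne] with ω hω
    obtain ⟨M, hM'⟩ := eventually_atTop.1 hω
    refine eventually_atTop.2 ⟨M + D, fun d hd => ?_⟩
    have := hM' (d - D) (by omega)
    rwa [Nat.sub_add_cancel (by omega : D ≤ d)] at this
  filter_upwards [ae_all_iff.2 key, h2 Ω μ ℱ S z hM η hη0] with ω hω hN
  obtain ⟨N, -, hN⟩ := hN
  obtain ⟨d0, hd0⟩ := eventually_atTop.1 (hω N)
  refine ⟨d0, fun d hd => ?_⟩
  have h4 : ¬ ∀ a : ℕ, a < d → d ≤ 2 * a → Nat.Coprime a d →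
      ∃ m ∈ T z d a 1 (X c d), ω ∈ S m := fun h => hd0 d hd ⟨h, hN⟩
  push Not at h4
  obtain ⟨a, ha1, ha2, ha3, ha4⟩ := h4
  refine ⟨a, ha1, ha3, fun n hn hnle hnS => ?_⟩
  refine ha4 n ?_ hnS
  classical
  unfold T
  refine Finset.mem_filter.2 ⟨Finset.mem_Icc.2 ⟨?_, Nat.le_floor hnle⟩, hn, ?_⟩
  · by_contra h0
    have hn0 : n = 0 := by omega
    subst hn0
    have h5 : d ∣ a := (Nat.modEq_zero_iff_dvd).1 hn.symm
    have h6 : a = 0 := Nat.eq_zero_of_dvd_of_lt h5 ha1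
    omega
  · by_contra hr
    rw [hM.sieved n hr] at hnS
    exact hnS

end Pool.Agent.J6H40.WG
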