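import Pool.Agent.J6H40.WG.Stm

set_option autoImplicit false

/-!
# WG-SEC: the second moment bound
-/

open MeasureTheory Filter
open scoped Topology

namespace Pool.Agent.J6H40.WG

theorem t_SEC (h1 : s_GM) (h2 : s_GC) (h3 : s_CH) : s_SEC := by
  intro Ω mΩ μ _ ℱ S hS I T p δ B hI hδ hδ2 hcard hp hB
  classical
  set U : Finset ℕ := I.biUnion T with hUdef
  have hTU : ∀ i ∈ I, T i ⊆ U := fun i hi => Finset.subset_biUnion_of_mem T hi
  have hU : ∀ m ∈ U, 1 ≤ m ∧ 0 ≤ p m ∧ p m ≤ 1 / 2 := by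
    intro m hm
    obtain ⟨i, hi, him⟩ := Finset.mem_biUnion.1 hm
    obtain ⟨a1, a2, a3⟩ := hp i hi m him
    exact ⟨a1, a2, a3.trans hδ2⟩
  have hδU : ∀ m ∈ U, p m ≤ δ := by
    intro m hm
    obtain ⟨i, hi, him⟩ := Finset.mem_biUnion.1 hm
    exact (hp i hi m him).2.2
  have hGC := h2 Ω μ ℱ S hS U p hU
  have hGM : ∀ V : Finset ℕ, V ⊆ U →
      (∫ ω, ∏ m ∈ V, gw μ ℱ S U p m ω ∂μ = 1) ∧
      ∀ A : Finset ℕ, A ⊆ V →
        ∫ ω, (∏ m ∈ V, gw μ ℱ S U p m ω) * (∏ m ∈ A, gw μ ℱ S U p m ω) ∂μ ≤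
          ∏ m ∈ A, (1 - p m)⁻¹ := by
    intro V hV
    refine h1 Ω μ ℱ (gw μ ℱ S U p) (fun m => (1 - p m)⁻¹) V ?_ ?_ ?_
    · intro m hm
      have hm' := hV hm
      refine ⟨(hU m hm').1, (hGC m hm').1, (hGC m hm').2.1, ?_⟩
      have := (hU m hm').2.2
      exact inv_nonneg.2 (by linarith)
    · intro m hm f hf hf0 hfC
      exact (hGC m (hV hm)).2.2.1 f hf hf0 hfC
    · intro m hm f hf hf0 hfC
      exact (hGC m (hV hm)).2.2.2 f hf hf0 hfC
  have hB0 : 0 ≤ B := by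
    obtain ⟨i, hi⟩ := hI
    refine le_trans ?_ (hB i hi)
    refine Finset.prod_nonneg fun m hm => inv_nonneg.2 ?_
    have := (hU m (hTU i hi hm)).2.2
    linarith
  have hCH := h3 Ω μ (ℕ × ℕ) I (fun i ω => ∏ m ∈ T i, gw μ ℱ S U p m ω) δ B hI hδ hB0
    (by
      intro i hi
      refine ⟨?_, 2 ^ (T i).card, fun ω => ?_⟩
      · refine Finset.measurable_prod _ fun m hm => ?_
        exact ((hGC m (hTU i hi hm)).1.measurable).mono (ℱ.le m) le_rfl
      · have hn : 0 ≤ ∏ m ∈ T i, gw μ ℱ S U p m ω :=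
          Finset.prod_nonneg fun m hm => ((hGC m (hTU i hi hm)).2.1 ω).1
        rw [abs_of_nonneg hn]
        calc ∏ m ∈ T i, gw μ ℱ S U p m ω ≤ ∏ _m ∈ T i, (2 : ℝ) :=
              Finset.prod_le_prod (fun m hm => ((hGC m (hTU i hi hm)).2.1 ω).1)
                fun m hm => ((hGC m (hTU i hi hm)).2.1 ω).2
          _ = 2 ^ (T i).card := Finset.prod_const _)
    (fun i hi => (hGM (T i) (hTU i hi)).1)
    (by
      intro i hi j hj hij
      have hsub : T i ∪ T j ⊆ U := Finset.union_subset (hTU i hi) (hTU j hj)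
      have hG := (hGM (T i ∪ T j) hsub).2 (T i ∩ T j)
        (Finset.inter_subset_left.trans Finset.subset_union_left)
      have e : ∀ ω, (∏ m ∈ T i, gw μ ℱ S U p m ω) * (∏ m ∈ T j, gw μ ℱ S U p m ω) =
          (∏ m ∈ T i ∪ T j, gw μ ℱ S U p m ω) * (∏ m ∈ T i ∩ T j, gw μ ℱ S U p m ω) :=
        fun ω => (Finset.prod_union_inter).symm
      simp only [e]
      refine hG.trans ?_
      rcases Nat.le_one_iff_eq_zero_or_eq_one.1 (hcard i hi j hj hij) with h0 | h0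
      · rw [Finset.card_eq_zero.1 h0, Finset.prod_empty]
        linarith
      · obtain ⟨m, hm⟩ := Finset.card_eq_one.1 h0
        rw [hm, Finset.prod_singleton]
        have hmU : m ∈ U := by
          have : m ∈ T i ∩ T j := by rw [hm]; exact Finset.mem_singleton_self m
          exact hTU i hi (Finset.mem_inter.1 this).1
        have hpm := hδU m hmU
        have hpos : 0 < 1 - p m := by linarith
        rw [inv_le_iff_one_le_mul₀ hpos]
        have hk : (1 + 2 * δ) * (1 - δ) ≤ (1 + 2 * δ) * (1 - p m) :=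
          mul_le_mul_of_nonneg_left (by linarith) (by linarith)
        nlinarith)
    (by
      intro i hi
      have hG := (hGM (T i) (hTU i hi)).2 (T i) (Finset.Subset.refl _)
      have e : ∀ ω, (∏ m ∈ T i, gw μ ℱ S U p m ω) ^ 2 =
          (∏ m ∈ T i, gw μ ℱ S U p m ω) * (∏ m ∈ T i, gw μ ℱ S U p m ω) :=
        fun ω => pow_two _
      simp only [e]
      exact hG.trans (hB i hi))
  refine le_trans (measureReal_mono ?_) hCH
  intro ω hω
  obtain ⟨ha, hb⟩ := hω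
  show ∀ i ∈ I, ∏ m ∈ T i, gw μ ℱ S U p m ω = 0
  intro i hi
  obtain ⟨m, hm, hmS⟩ := ha i hi
  refine Finset.prod_eq_zero hm ?_
  unfold gw
  rw [if_pos, if_pos hmS]
  intro k hk _
  obtain ⟨j, hj, hjk⟩ := Finset.mem_biUnion.1 hk
  exact hb j hj k hjk

end Pool.Agent.J6H40.WG
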