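import Pool.Agent.J6H40.WG.Stm

set_option autoImplicit false

/-!
# Module SECD: the bound for many moduli
-/

open MeasureTheory Filter
open scoped Topology

namespace Pool.Agent.J6H40.WG

theorem SECD_le_of_mod {m a d : ℕ} (had : a < d) (h : m ≡ a [MOD d]) : a ≤ m := by
  have h1 : m % d = a := by
    have h2 : m % d = a % d := h
    rw [h2, Nat.mod_eq_of_lt had]
  rw [← h1]
  exact Nat.mod_le m d

theorem SECD_log (c : ℝ) (hc : 0 < c) : ∀ᶠ D : ℕ in atTop, 4 * c * Real.log D ^ 2 ≤ D := by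
  have h1 := (Real.isLittleO_pow_log_id_atTop (n := 2)).comp_tendsto
    (tendsto_natCast_atTop_atTop (R := ℝ))
  have h2 := h1.bound (c := 1 / (4 * c)) (by positivity)
  filter_upwards [h2] with D hD
  simp only [Function.comp, id, Real.norm_eq_abs] at hD
  rw [abs_of_nonneg (by positivity), abs_of_nonneg (by positivity)] at hD
  have h3 : 4 * c * Real.log D ^ 2 ≤ 4 * c * (1 / (4 * c) * D) :=
    mul_le_mul_of_nonneg_left hD (by positivity)
  have h4 : 4 * c * (1 / (4 * c) * D) = (D : ℝ) := by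
    field_simp
  linarith

theorem t_SECD (h1 : s_SEC) (h2 : s_SU) (h3 : s_DT) (h4 : s_EXP) (h5 : s_CC) (h6 : s_PR)
    (h7 : s_TI) : s_SECD := by
  intro z hz Ω mΩ μ _ ℱ S hS c η κ hc hη hκ hκ2 N
  obtain ⟨p0, hp0, hp02, hexp⟩ := h4 η hη
  obtain ⟨δ, hδ⟩ : ∃ δ : ℝ, δ = min p0 (η / 2) := ⟨_, rfl⟩
  have hδ0 : 0 < δ := by rw [hδ]; exact lt_min hp0 (by positivity)
  have hδp : δ ≤ p0 := by rw [hδ]; exact min_le_left _ _
  have hδ2 : δ ≤ 1 / 2 := hδp.trans hp02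
  have hδη : 2 * δ ≤ η := by
    have h8 := min_le_right p0 (η / 2)
    rw [← hδ] at h8
    linarith
  have hη1 : 0 < 1 + η := by linarith
  obtain ⟨M1, hM1⟩ := eventually_atTop.1 (h3 z hz (δ / (1 + η)) (by positivity))
  obtain ⟨D1, hD1⟩ := eventually_atTop.1 (h2 z hz c η hc hη)
  filter_upwards [h6 κ hκ, SECD_log c hc, eventually_ge_atTop (2 * (N + M1) + D1 + 2)]
    with D hPR hlD hD
  have hD0 : (1 : ℝ) ≤ (D : ℝ) := by
    have h8 : 1 ≤ D := by omega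
    exact_mod_cast h8
  obtain ⟨M, hM⟩ : ∃ M : ℕ, M = ⌊(D : ℝ) ^ (1 + κ)⌋₊ := ⟨_, rfl⟩
  rw [← hM] at hPR
  obtain ⟨P, hP⟩ : ∃ P : Finset ℕ, P = (Finset.Ioc D M).filter Nat.Prime := ⟨_, rfl⟩
  rw [← hP] at hPR
  obtain ⟨I, hI⟩ : ∃ I : Finset (ℕ × ℕ), I = (P ×ˢ Finset.range (M + 1)).filter
    (fun i => i.2 < i.1 ∧ (Nat.Coprime i.2 i.1 ∧ i.1 ≤ 2 * i.2)) := ⟨_, rfl⟩
  have hcard : (D : ℝ) * D ≤ 2 * (I.card : ℝ) := by
    have e1 : I.card = ∑ d ∈ P, ((Finset.range (M + 1)).filter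
        (fun a => a < d ∧ (Nat.Coprime a d ∧ d ≤ 2 * a))).card := by
      rw [hI, Finset.card_filter, Finset.sum_product]
      exact Finset.sum_congr rfl fun d _ => (Finset.card_filter _ _).symm
    have e2 : ∀ d ∈ P, D ≤ 2 * ((Finset.range (M + 1)).filter
        (fun a => a < d ∧ (Nat.Coprime a d ∧ d ≤ 2 * a))).card := by
      intro d hd
      rw [hP] at hd
      have hdp : d.Prime := (Finset.mem_filter.1 hd).2
      have hd1 := Finset.mem_Ioc.1 (Finset.mem_filter.1 hd).1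
      have h8 := h5 d hdp.two_le
      rw [Nat.totient_prime hdp] at h8
      have h9 : ((Finset.range d).filter (fun a => Nat.Coprime a d ∧ d ≤ 2 * a)).card ≤
          ((Finset.range (M + 1)).filter
            (fun a => a < d ∧ (Nat.Coprime a d ∧ d ≤ 2 * a))).card := by
        apply Finset.card_le_card
        intro a ha
        simp only [Finset.mem_filter, Finset.mem_range] at ha ⊢
        exact ⟨by omega, ha.1, ha.2⟩
      omega
    have e3 : D * D ≤ 2 * I.card := by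
      calc D * D ≤ P.card * D := Nat.mul_le_mul_right _ hPR
        _ = ∑ d ∈ P, D := by simp
        _ ≤ ∑ d ∈ P, 2 * ((Finset.range (M + 1)).filter
            (fun a => a < d ∧ (Nat.Coprime a d ∧ d ≤ 2 * a))).card := Finset.sum_le_sum e2
        _ = 2 * I.card := by rw [e1, Finset.mul_sum]
    exact_mod_cast e3
  have hI0 : (0 : ℝ) < (I.card : ℝ) := by nlinarith
  have hne : I.Nonempty := by
    rw [← Finset.card_pos]
    exact_mod_cast hI0
  have hmem : ∀ i ∈ I, i.1.Prime ∧ D < i.1 ∧ (i.1 : ℝ) ≤ (D : ℝ) ^ (1 + κ) ∧ i.2 < i.1 ∧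
      i.1 ≤ 2 * i.2 ∧ Nat.Coprime i.2 i.1 := by
    intro i hi
    rw [hI] at hi
    obtain ⟨g1, g2, g3, g4⟩ := Finset.mem_filter.1 hi
    have g5 := (Finset.mem_product.1 g1).1
    rw [hP] at g5
    obtain ⟨g6, g7⟩ := Finset.mem_filter.1 g5
    obtain ⟨g8, g9⟩ := Finset.mem_Ioc.1 g6
    refine ⟨g7, g8, ?_, g2, g4, g3⟩
    rw [hM] at g9
    exact (Nat.le_floor_iff (by positivity)).1 g9
  have hT : ∀ i ∈ I, ∀ m ∈ T z i.1 i.2 1 (X c i.1),
      1 ≤ m ∧ N ≤ m ∧ M1 ≤ m ∧ Rough z m := by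
    intro i hi m hm
    obtain ⟨g1, g2, g3, g4, g5, g6⟩ := hmem i hi
    classical
    unfold T at hm
    obtain ⟨k1, k2, k3⟩ := (@Finset.mem_filter _ _ (_) _ _).1 hm
    have k4 := SECD_le_of_mod g4 k2
    exact ⟨(Finset.mem_Icc.1 k1).1, by omega, by omega, k3⟩
  have hp : ∀ i ∈ I, ∀ m ∈ T z i.1 i.2 1 (X c i.1), 1 ≤ m ∧
      0 ≤ (1 + η) * (W (z m) / Real.log m) ∧ (1 + η) * (W (z m) / Real.log m) ≤ δ := by
    intro i hi m hm
    obtain ⟨k1, k2, k3, k4⟩ := hT i hi m hm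
    obtain ⟨l1, l2⟩ := hM1 m k3
    refine ⟨k1, by positivity, ?_⟩
    rw [le_div_iff₀ hη1] at l2
    linarith
  have hlogd : ∀ i ∈ I, Real.log (i.1 : ℝ) ≤ (1 + κ) * Real.log D := by
    intro i hi
    obtain ⟨g1, g2, g3, g4, g5, g6⟩ := hmem i hi
    have g7 : (0 : ℝ) < (i.1 : ℝ) := by exact_mod_cast g1.pos
    have g8 := Real.log_le_log g7 g3
    rwa [Real.log_rpow (by linarith)] at g8
  have hlogD : 0 ≤ Real.log (D : ℝ) := Real.log_nonneg hD0
  have hB : ∀ i ∈ I, ∏ m ∈ T z i.1 i.2 1 (X c i.1),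
      (1 - (1 + η) * (W (z m) / Real.log m))⁻¹ ≤ (D : ℝ) ^ ((1 + κ) * (1 + η) ^ 3 * c) := by
    intro i hi
    obtain ⟨g1, g2, g3, g4, g5, g6⟩ := hmem i hi
    have s1 : ∏ m ∈ T z i.1 i.2 1 (X c i.1), (1 - (1 + η) * (W (z m) / Real.log m))⁻¹ ≤
        ∏ m ∈ T z i.1 i.2 1 (X c i.1), Real.exp ((1 + η) * ((1 + η) * (W (z m) / Real.log m))) := by
      refine Finset.prod_le_prod ?_ ?_
      · intro m hm
        obtain ⟨k1, k2, k3⟩ := hp i hi m hm
        have k4 : 0 < 1 - (1 + η) * (W (z m) / Real.log m) := by linarith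
        positivity
      · intro m hm
        obtain ⟨k1, k2, k3⟩ := hp i hi m hm
        have k4 : 0 < 1 - (1 + η) * (W (z m) / Real.log m) := by linarith
        have k5 := hexp _ k2 (k3.trans hδp)
        rw [Real.exp_neg] at k5
        exact inv_le_of_inv_le₀ (Real.exp_pos _) k5
    have s2 : ∏ m ∈ T z i.1 i.2 1 (X c i.1), Real.exp ((1 + η) * ((1 + η) * (W (z m) / Real.log m))) =
        Real.exp ((1 + η) ^ 2 * ∑ m ∈ T z i.1 i.2 1 (X c i.1), W (z m) / Real.log m) := by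
      rw [← Real.exp_sum, Finset.mul_sum]
      congr 1
      exact Finset.sum_congr rfl fun m _ => by ring
    have s3 := hD1 i.1 (by omega) i.2 g4 g5 g6
    have s4 := hlogd i hi
    have s5 : (1 + η) ^ 2 * ∑ m ∈ T z i.1 i.2 1 (X c i.1), W (z m) / Real.log m ≤
        Real.log D * ((1 + κ) * (1 + η) ^ 3 * c) := by
      calc (1 + η) ^ 2 * ∑ m ∈ T z i.1 i.2 1 (X c i.1), W (z m) / Real.log m
          ≤ (1 + η) ^ 2 * ((1 + η) * c * Real.log (i.1 : ℝ)) :=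
            mul_le_mul_of_nonneg_left s3 (by positivity)
        _ ≤ (1 + η) ^ 2 * ((1 + η) * c * ((1 + κ) * Real.log D)) :=
            mul_le_mul_of_nonneg_left (mul_le_mul_of_nonneg_left s4 (by positivity)) (by positivity)
        _ = Real.log D * ((1 + κ) * (1 + η) ^ 3 * c) := by ring
    refine s1.trans ?_
    rw [s2, Real.rpow_def_of_pos (by linarith)]
    exact Real.exp_le_exp.2 s5
  have hcap : ∀ i ∈ I, ∀ j ∈ I, i ≠ j →
      (T z i.1 i.2 1 (X c i.1) ∩ T z j.1 j.2 1 (X c j.1)).card ≤ 1 := by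
    intro i hi j hj hij
    obtain ⟨g1, g2, g3, g4, g5, g6⟩ := hmem i hi
    obtain ⟨k1, k2, k3, k4, k5, k6⟩ := hmem j hj
    refine h7 z i.1 j.1 i.2 j.2 _ _ g1 k1 g4 k4 ?_ ?_
    · intro h8
      apply hij
      exact h8
    · unfold X
      apply Nat.floor_le_of_le
      have s4 := hlogd i hi
      have s5 : 0 ≤ Real.log (i.1 : ℝ) := Real.log_nonneg (by exact_mod_cast g1.one_lt.le)
      have s6 : Real.log (i.1 : ℝ) ≤ 2 * Real.log D := by nlinarith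
      have s7 : Real.log (i.1 : ℝ) ^ 2 ≤ 4 * Real.log D ^ 2 := by nlinarith
      have s8 : (Nat.totient i.1 : ℝ) ≤ (i.1 : ℝ) := by exact_mod_cast Nat.totient_le i.1
      have s9 : (D : ℝ) ≤ (j.1 : ℝ) := by exact_mod_cast k2.le
      push_cast
      calc c * (Nat.totient i.1 : ℝ) * Real.log (i.1 : ℝ) ^ 2
          ≤ c * (i.1 : ℝ) * Real.log (i.1 : ℝ) ^ 2 :=
            mul_le_mul_of_nonneg_right (mul_le_mul_of_nonneg_left s8 hc.le) (by positivity)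
        _ ≤ c * (i.1 : ℝ) * (4 * Real.log D ^ 2) :=
            mul_le_mul_of_nonneg_left s7 (by positivity)
        _ = (i.1 : ℝ) * (4 * c * Real.log D ^ 2) := by ring
        _ ≤ (i.1 : ℝ) * (j.1 : ℝ) :=
            mul_le_mul_of_nonneg_left (hlD.trans s9) (by positivity)
  have key := h1 Ω μ ℱ S hS I (fun i => T z i.1 i.2 1 (X c i.1))
    (fun m => (1 + η) * (W (z m) / Real.log m)) δ ((D : ℝ) ^ ((1 + κ) * (1 + η) ^ 3 * c))
    hne hδ0.le hδ2 hcap hp hB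
  have hsub : {ω | (∀ d : ℕ, d.Prime → D < d → (d : ℝ) ≤ (D : ℝ) ^ (1 + κ) →
        ∀ a : ℕ, a < d → d ≤ 2 * a → Nat.Coprime a d → ∃ m ∈ T z d a 1 (X c d), ω ∈ S m) ∧
      ω ∈ Up μ ℱ S z η N} ⊆
      {ω | (∀ i ∈ I, ∃ m ∈ (fun i : ℕ × ℕ => T z i.1 i.2 1 (X c i.1)) i, ω ∈ S m) ∧
        ∀ i ∈ I, ∀ m ∈ (fun i : ℕ × ℕ => T z i.1 i.2 1 (X c i.1)) i,
          cp μ ℱ S m ω ≤ (fun m : ℕ => (1 + η) * (W (z m) / Real.log m)) m} := by
    rintro ω ⟨hω1, hω2⟩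
    refine ⟨?_, ?_⟩
    · intro i hi
      obtain ⟨g1, g2, g3, g4, g5, g6⟩ := hmem i hi
      exact hω1 i.1 g1 g2 g3 i.2 g4 g5 g6
    · intro i hi m hm
      obtain ⟨k1, k2, k3, k4⟩ := hT i hi m hm
      exact hω2 m k2 k4
  refine (measureReal_mono hsub (measure_ne_top μ _)).trans (key.trans ?_)
  have hBp : 0 ≤ (D : ℝ) ^ ((1 + κ) * (1 + η) ^ 3 * c) := by positivity
  have f1 : (D : ℝ) ^ ((1 + κ) * (1 + η) ^ 3 * c) / (I.card : ℝ) ≤
      4 * (D : ℝ) ^ ((1 + κ) * (1 + η) ^ 3 * c) / (D : ℝ) ^ 2 := by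
    rw [div_le_div_iff₀ hI0 (by positivity)]
    nlinarith
  linarith

end Pool.Agent.J6H40.WG
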