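import Pool.Agent.J6H40.WG.Stm

set_option autoImplicit false

/-!
# Module TI: intersections of progressions
-/

namespace Pool.Agent.J6H40.WG

/-- TI -/
theorem t_TI : s_TI := by
  intro z d d' a a' x x' hd hd' ha ha' hne hx
  rw [Finset.card_le_one]
  intro m hm n hn
  rw [Finset.mem_inter] at hm hn
  simp only [T, Finset.mem_filter, Finset.mem_Icc] at hm hn
  obtain ⟨⟨⟨hm1, hmx⟩, hma, -⟩, -, hma', -⟩ := hm
  obtain ⟨⟨⟨hn1, hnx⟩, hna, -⟩, -, hna', -⟩ := hn
  by_cases hdd : d = d'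
  · exfalso
    subst hdd
    have h1 : a ≡ a' [MOD d] := hma.symm.trans hma'
    have h2 : a = a' := h1.eq_of_lt_of_lt ha ha'
    exact hne (by rw [h2])
  · have hco : Nat.Coprime d d' := (Nat.coprime_primes hd hd').2 hdd
    have h1 : m ≡ n [MOD d * d'] :=
      (Nat.modEq_and_modEq_iff_modEq_mul hco).1 ⟨hma.trans hna.symm, hma'.trans hna'.symm⟩
    have key : ∀ m n : ℕ, 1 ≤ m → n ≤ d * d' → m ≤ n → m ≡ n [MOD d * d'] → m = n := by
      intro m n h3 h4 h5 h6
      have h7 : d * d' ∣ n - m := (Nat.modEq_iff_dvd' h5).1 h6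
      by_contra h8
      have h9 := Nat.le_of_dvd (by omega) h7
      omega
    rcases le_total m n with h | h
    · exact key m n hm1 (hnx.trans hx) h h1
    · exact (key n m hn1 (hmx.trans hx) h h1.symm).symm

end Pool.Agent.J6H40.WG
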