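import Pool.Agent.J6H40.WG.Stm

set_option autoImplicit false

/-! # UPD: the probability bound for one progression (helper62) -/

open MeasureTheory Filter
open scoped Topology

namespace Pool.Agent.J6H40.WG

theorem t_UPD (h1 : s_UP) (h2 : s_SL) (h3 : s_DT) : s_UPD := by
  classical
  intro z hz Ω mΩ μ _ ℱ S hS c κ hc hκ hκ2
  obtain ⟨M0, hM0⟩ := eventually_atTop.1 (h3 z hz 1 one_pos)
  filter_upwards [h2 z hz c κ hc hκ hκ2, eventually_ge_atTop M0, eventually_ge_atTop 1] with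
    d hd hdM hd1 hF a ha hco N hN
  have hmem : ∀ m ∈ T z d a d (X c d), d ≤ m ∧ Rough z m := by
    intro m hm
    unfold T at hm
    rw [Finset.mem_filter, Finset.mem_Icc] at hm
    exact ⟨hm.1.1, hm.2.2⟩
  have hp : ∀ m ∈ T z d a d (X c d), 1 ≤ m ∧ 0 ≤ (1 - κ) * (W (z m) / Real.log m) ∧
      (1 - κ) * (W (z m) / Real.log m) ≤ 1 := by
    intro m hm
    obtain ⟨g1, g2⟩ := hmem m hm
    obtain ⟨g3, g4⟩ := hM0 m (hdM.trans g1)
    refine ⟨by omega, mul_nonneg (by linarith) g3, ?_⟩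
    nlinarith
  have h5 := h1 Ω μ ℱ S hS (T z d a d (X c d)) (fun m => (1 - κ) * (W (z m) / Real.log m)) hp
  have h6 : {ω | (∀ m ∈ T z d a d (X c d), ω ∉ S m) ∧ ω ∈ Lo μ ℱ S z κ N} ⊆
      {ω | (∀ m ∈ T z d a d (X c d), ω ∉ S m) ∧
        ∀ m ∈ T z d a d (X c d), (1 - κ) * (W (z m) / Real.log m) ≤ cp μ ℱ S m ω} := by
    rintro ω ⟨g1, g2⟩
    exact ⟨g1, fun m hm => g2 m (hN.trans (hmem m hm).1) (hmem m hm).2⟩
  refine (measureReal_mono h6).trans (h5.trans ?_)
  have hd0 : (0 : ℝ) < d := by exact_mod_cast hd1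
  have h7 : ∏ m ∈ T z d a d (X c d), (1 - (1 - κ) * (W (z m) / Real.log m)) ≤
      ∏ m ∈ T z d a d (X c d), Real.exp (-((1 - κ) * (W (z m) / Real.log m))) := by
    refine Finset.prod_le_prod (fun m hm => ?_) (fun m _ => ?_)
    · have := (hp m hm).2.2
      linarith
    · have := Real.add_one_le_exp (-((1 - κ) * (W (z m) / Real.log m)))
      linarith
  refine h7.trans ?_
  rw [← Real.exp_sum, Finset.sum_neg_distrib, ← Finset.mul_sum, Real.rpow_def_of_pos hd0, Real.exp_le_exp]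
  have h8 := hd hF a ha hco
  have h9 : (1 - κ) * ((1 - 2 * κ) * c * Real.log d) ≤
      (1 - κ) * ∑ m ∈ T z d a d (X c d), W (z m) / Real.log m :=
    mul_le_mul_of_nonneg_left h8 (by linarith)
  linarith

end Pool.Agent.J6H40.WG
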