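import Pool.Agent.J6H40.WG.Final
import Pool.Agent.J6H40.WG.PULL
import Pool.Agent.J6H40.WG.UP
import Pool.Agent.J6H40.WG.DIS
import Pool.Agent.J6H40.WG.GM
import Pool.Agent.J6H40.WG.GC
import Pool.Agent.J6H40.WG.CH
import Pool.Agent.J6H40.WG.SEC
import Pool.Agent.J6H40.WG.CNT
import Pool.Agent.J6H40.WG.WD
import Pool.Agent.J6H40.WG.WB
import Pool.Agent.J6H40.WG.BLK
import Pool.Agent.J6H40.WG.AS
import Pool.Agent.J6H40.WG.SU
import Pool.Agent.J6H40.WG.SL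
import Pool.Agent.J6H40.WG.CC
import Pool.Agent.J6H40.WG.PR
import Pool.Agent.J6H40.WG.TI
import Pool.Agent.J6H40.WG.EXP
import Pool.Agent.J6H40.WG.DT
import Pool.Agent.J6H40.WG.GE
import Pool.Agent.J6H40.WG.UPD
import Pool.Agent.J6H40.WG.DISD
import Pool.Agent.J6H40.WG.SECD
import Pool.Agent.J6H40.WG.P1
import Pool.Agent.J6H40.WG.P2
import Pool.Agent.J6H40.WG.P3
import Pool.Agent.J6H40.WG.P4

set_option autoImplicit false

/-!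
# Assembly of all modules
-/

open MeasureTheory Filter
open scoped Topology ENNReal

namespace Pool.Agent.J6H40.WG

theorem a_BLK : s_BLK := t_BLK t_CNT t_WB

theorem a_SU : s_SU := t_SU a_BLK t_AS t_WB t_WD

theorem a_SL : s_SL := t_SL a_BLK t_AS t_WB t_WD

theorem a_DT : s_DT := t_DT t_WB

theorem a_GE : s_GE := t_GE t_WB

theorem a_UPD : s_UPD := t_UPD (t_UP t_PULL) a_SL a_DT

theorem a_DISD : s_DISD := t_DISD (t_DIS t_PULL) a_SU a_DT t_EXP t_CC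

theorem a_SEC : s_SEC := t_SEC t_GM (t_GC t_PULL) t_CH

theorem a_SECD : s_SECD := t_SECD a_SEC a_SU a_DT t_EXP t_CC t_PR t_TI

theorem a_P1 : s_P1 := t_P1 a_DISD a_GE t_WB

theorem a_P2 : s_P2 := t_P2 a_UPD a_GE

theorem a_P3 : s_P3 := t_P3 a_SECD a_GE

theorem a_P4 : s_P4 := t_P4 a_UPD a_GE

theorem all (z : ℕ → ℕ) (hz : Slow z) {Ω : Type}
    [mΩ : MeasurableSpace Ω] (μ : Measure Ω) [IsProbabilityMeasure μ] (ℱ : Filtration ℕ mΩ)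
    (S : ℕ → Set Ω) (hM : IsModel μ ℱ S z) :
    ∀ᵐ ω ∂μ, liminf (ratio S ω) atTop = 1 ∧
      liminf (ratio S ω) (atTop ⊓ 𝓟 {d : ℕ | d.Prime}) = 1 ∧
      limsup (ratio S ω) (atTop ⊓ 𝓟 {d : ℕ | d.Prime}) = 2 ∧
      ∀ D : Set ℕ, Tendsto (tail z) (atTop ⊓ 𝓟 D) (𝓝 0) → limsup (ratio S ω) (atTop ⊓ 𝓟 D) ≤ 2 :=
  final a_P1 a_P2 a_P3 a_P4 z hz μ ℱ S hM

end Pool.Agent.J6H40.WG
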