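import Pool.Agent.J6H40.WG.Stm

set_option autoImplicit false

/-!
# The final statement from P1, P2, P3, P4
-/

open MeasureTheory Filter
open scoped Topology ENNReal

namespace Pool.Agent.J6H40.WG

/-- the largest, over the reduced residues `a` mod `d`, of the least chosen `n ≡ a (mod d)`
(`∞` if some class contains no chosen integer) -/
noncomputable def pmax {Ω : Type} (S : ℕ → Set Ω) (ω : Ω) (d : ℕ) : ℝ≥0∞ :=
  ⨆ a ∈ {a : ℕ | a < d ∧ Nat.Coprime a d}, ⨅ n ∈ {n : ℕ | n ≡ a [MOD d] ∧ ω ∈ S n}, (n : ℝ≥0∞)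

/-- `pmax` divided by `φ(d) (log d)²` -/
noncomputable def ratio {Ω : Type} (S : ℕ → Set Ω) (ω : Ω) (d : ℕ) : ℝ≥0∞ :=
  pmax S ω d / ENNReal.ofReal ((Nat.totient d : ℝ) * Real.log d ^ 2)

/-- the sum of `1/q` over the prime factors `q > z(d)` of `d` -/
noncomputable def tail (z : ℕ → ℕ) (d : ℕ) : ℝ :=
  ∑ q ∈ d.primeFactors.filter (fun q => z d < q), (q : ℝ)⁻¹

lemma base_pos {d : ℕ} (hd : 2 ≤ d) : 0 < (Nat.totient d : ℝ) * Real.log d ^ 2 := by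
  have h1 : 0 < Real.log d := Real.log_pos (by exact_mod_cast hd)
  have h2 : 0 < (Nat.totient d : ℝ) := by exact_mod_cast Nat.totient_pos.2 (by omega)
  positivity

lemma ratio_ge {Ω : Type} {S : ℕ → Set Ω} {ω : Ω} {d : ℕ} (hd : 2 ≤ d) {c : ℝ}
    (h : ∃ a : ℕ, a < d ∧ Nat.Coprime a d ∧
      ∀ n : ℕ, n ≡ a [MOD d] → (n : ℝ) ≤ c * (Nat.totient d : ℝ) * Real.log d ^ 2 → ω ∉ S n) :
    ENNReal.ofReal c ≤ ratio S ω d := by
  obtain ⟨a, ha, hac, h⟩ := h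
  have hb := base_pos hd
  unfold ratio
  rw [ENNReal.le_div_iff_mul_le (Or.inl (ENNReal.ofReal_pos.2 hb).ne') (Or.inl ENNReal.ofReal_ne_top)]
  unfold pmax
  refine le_trans ?_ (le_iSup₂ (f := fun (a : ℕ) (_ : a ∈ {a : ℕ | a < d ∧ Nat.Coprime a d}) =>
    ⨅ n ∈ {n : ℕ | n ≡ a [MOD d] ∧ ω ∈ S n}, (n : ℝ≥0∞)) a ⟨ha, hac⟩)
  refine le_iInf₂ fun n hn => ?_
  obtain ⟨hn1, hn2⟩ := hn
  have h3 : ¬ (n : ℝ) ≤ c * (Nat.totient d : ℝ) * Real.log d ^ 2 := fun h4 => h n hn1 h4 hn2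
  rw [← ENNReal.ofReal_mul' hb.le]
  rw [← ENNReal.ofReal_natCast]
  apply ENNReal.ofReal_le_ofReal
  push Not at h3
  nlinarith [h3]

lemma ratio_le {Ω : Type} {S : ℕ → Set Ω} {ω : Ω} {d : ℕ} (hd : 2 ≤ d) {c : ℝ}
    (h : ∀ a : ℕ, a < d → Nat.Coprime a d →
      ∃ n : ℕ, n ≡ a [MOD d] ∧ (n : ℝ) ≤ c * (Nat.totient d : ℝ) * Real.log d ^ 2 ∧ ω ∈ S n) :
    ratio S ω d ≤ ENNReal.ofReal c := by
  have hb := base_pos hd
  unfold ratio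
  rw [ENNReal.div_le_iff_le_mul (Or.inl (ENNReal.ofReal_pos.2 hb).ne') (Or.inl ENNReal.ofReal_ne_top)]
  unfold pmax
  refine iSup₂_le fun a ha => ?_
  obtain ⟨n, hn1, hn2, hn3⟩ := h a ha.1 ha.2
  refine (iInf₂_le n ⟨hn1, hn3⟩).trans ?_
  rw [← ENNReal.ofReal_mul' hb.le, ← ENNReal.ofReal_natCast]
  apply ENNReal.ofReal_le_ofReal
  nlinarith [hn2]

lemma tail_prime (z : ℕ → ℕ) {d : ℕ} (hd : d.Prime) : 0 ≤ tail z d ∧ tail z d ≤ (d : ℝ)⁻¹ := by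
  unfold tail
  constructor
  · exact Finset.sum_nonneg fun q _ => by positivity
  · rw [hd.primeFactors]
    refine (Finset.sum_le_sum_of_subset_of_nonneg (Finset.filter_subset _ _) fun q _ _ => by positivity).trans ?_
    simp

lemma tail_primes (z : ℕ → ℕ) : Tendsto (tail z) (atTop ⊓ 𝓟 {d : ℕ | d.Prime}) (𝓝 0) := by
  have h1 : Tendsto (fun d : ℕ => (d : ℝ)⁻¹) (atTop ⊓ 𝓟 {d : ℕ | d.Prime}) (𝓝 0) :=
    tendsto_inv_atTop_nhds_zero_nat.mono_left inf_le_left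
  refine tendsto_of_tendsto_of_tendsto_of_le_of_le' tendsto_const_nhds h1 ?_ ?_
  · rw [eventually_inf_principal]
    exact Eventually.of_forall fun d hd => (tail_prime z hd).1
  · rw [eventually_inf_principal]
    exact Eventually.of_forall fun d hd => (tail_prime z hd).2

theorem final (h1 : s_P1) (h2 : s_P2) (h3 : s_P3) (h4 : s_P4) (z : ℕ → ℕ) (hz : Slow z) {Ω : Type}
    [mΩ : MeasurableSpace Ω] (μ : Measure Ω) [IsProbabilityMeasure μ] (ℱ : Filtration ℕ mΩ)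
    (S : ℕ → Set Ω) (hM : IsModel μ ℱ S z) :
    ∀ᵐ ω ∂μ, liminf (ratio S ω) atTop = 1 ∧
      liminf (ratio S ω) (atTop ⊓ 𝓟 {d : ℕ | d.Prime}) = 1 ∧
      limsup (ratio S ω) (atTop ⊓ 𝓟 {d : ℕ | d.Prime}) = 2 ∧
      ∀ D : Set ℕ, Tendsto (tail z) (atTop ⊓ 𝓟 D) (𝓝 0) → limsup (ratio S ω) (atTop ⊓ 𝓟 D) ≤ 2 := by
  have e1 : ∀ k : ℕ, 0 < 1 - 1 / ((k : ℝ) + 2) ∧ 1 - 1 / ((k : ℝ) + 2) < 1 := by
    intro k
    have h5 : 0 < 1 / ((k : ℝ) + 2) := by positivity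
    have h6 : 1 / ((k : ℝ) + 2) < 1 := by
      rw [div_lt_one (by positivity)]
      have : (0 : ℝ) ≤ k := Nat.cast_nonneg k
      linarith
    constructor <;> linarith
  have g1 : ∀ᵐ ω ∂μ, ∀ k : ℕ, ∃ d0 : ℕ, ∀ d : ℕ, d0 ≤ d →
      ENNReal.ofReal (1 - 1 / ((k : ℝ) + 2)) ≤ ratio S ω d := by
    rw [ae_all_iff]
    intro k
    filter_upwards [h1 z hz Ω μ ℱ S hM _ (e1 k).1 (e1 k).2] with ω hω
    obtain ⟨d0, hd0⟩ := hω
    exact ⟨max d0 2, fun d hd => ratio_ge (le_trans (le_max_right _ _) hd) (hd0 d (le_trans (le_max_left _ _) hd))⟩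
  have g2 : ∀ᵐ ω ∂μ, ∀ k : ℕ, ∃ κ : ℝ, 0 < κ ∧ ∃ d0 : ℕ, ∀ d : ℕ, d0 ≤ d → tail z d ≤ κ →
      ratio S ω d ≤ ENNReal.ofReal (2 + 1 / ((k : ℝ) + 1)) := by
    rw [ae_all_iff]
    intro k
    have h5 : 0 < 1 / ((k : ℝ) + 1) := by positivity
    obtain ⟨κ, hκ, h⟩ := h2 z hz (2 + 1 / ((k : ℝ) + 1)) (by linarith)
    filter_upwards [h Ω μ ℱ S hM] with ω hω
    obtain ⟨d0, hd0⟩ := hω
    exact ⟨κ, hκ, max d0 2, fun d hd ht => ratio_le (le_trans (le_max_right _ _) hd)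
      (hd0 d (le_trans (le_max_left _ _) hd) ht)⟩
  have g3 : ∀ᵐ ω ∂μ, ∀ k : ℕ, ∀ d0 : ℕ, ∃ d : ℕ, d0 ≤ d ∧ d.Prime ∧
      ENNReal.ofReal (2 - 1 / ((k : ℝ) + 1)) ≤ ratio S ω d := by
    rw [ae_all_iff]
    intro k
    have h5 : 0 < 1 / ((k : ℝ) + 1) := by positivity
    have h6 : 1 / ((k : ℝ) + 1) ≤ 1 := by
      rw [div_le_one (by positivity)]
      have : (0 : ℝ) ≤ k := Nat.cast_nonneg k
      linarith
    filter_upwards [h3 z hz Ω μ ℱ S hM (2 - 1 / ((k : ℝ) + 1)) (by linarith) (by linarith)] with ω hω d0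
    obtain ⟨d, hd, hp, h⟩ := hω d0
    exact ⟨d, hd, hp, ratio_ge hp.two_le h⟩
  have g4 : ∀ᵐ ω ∂μ, ∀ k : ℕ, ∀ d0 : ℕ, ∃ d : ℕ, d0 ≤ d ∧ d.Prime ∧
      ratio S ω d ≤ ENNReal.ofReal (1 + 1 / ((k : ℝ) + 1)) := by
    rw [ae_all_iff]
    intro k
    have h5 : 0 < 1 / ((k : ℝ) + 1) := by positivity
    filter_upwards [h4 z hz Ω μ ℱ S hM (1 + 1 / ((k : ℝ) + 1)) (by linarith)] with ω hω d0
    obtain ⟨d, hd, hp, h⟩ := hω d0
    exact ⟨d, hd, hp, ratio_le hp.two_le h⟩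
  have t1 : Tendsto (fun k : ℕ => ENNReal.ofReal (1 - 1 / ((k : ℝ) + 2))) atTop (𝓝 1) := by
    have h5 : Tendsto (fun k : ℕ => 1 - 1 / ((k : ℝ) + 2)) atTop (𝓝 (1 - 0)) := by
      apply Tendsto.sub tendsto_const_nhds
      have := (tendsto_one_div_add_atTop_nhds_zero_nat (𝕜 := ℝ)).comp (tendsto_add_atTop_nat 1)
      refine this.congr fun k => ?_
      simp only [Function.comp]
      push_cast
      ring
    simpa using ENNReal.tendsto_ofReal h5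
  have t2 : Tendsto (fun k : ℕ => ENNReal.ofReal (2 + 1 / ((k : ℝ) + 1))) atTop (𝓝 2) := by
    have h5 : Tendsto (fun k : ℕ => 2 + 1 / ((k : ℝ) + 1)) atTop (𝓝 (2 + 0)) :=
      Tendsto.add tendsto_const_nhds tendsto_one_div_add_atTop_nhds_zero_nat
    simpa using ENNReal.tendsto_ofReal h5
  have t3 : Tendsto (fun k : ℕ => ENNReal.ofReal (2 - 1 / ((k : ℝ) + 1))) atTop (𝓝 2) := by
    have h5 : Tendsto (fun k : ℕ => 2 - 1 / ((k : ℝ) + 1)) atTop (𝓝 (2 - 0)) :=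
      Tendsto.sub tendsto_const_nhds tendsto_one_div_add_atTop_nhds_zero_nat
    simpa using ENNReal.tendsto_ofReal h5
  have t4 : Tendsto (fun k : ℕ => ENNReal.ofReal (1 + 1 / ((k : ℝ) + 1))) atTop (𝓝 1) := by
    have h5 : Tendsto (fun k : ℕ => 1 + 1 / ((k : ℝ) + 1)) atTop (𝓝 (1 + 0)) :=
      Tendsto.add tendsto_const_nhds tendsto_one_div_add_atTop_nhds_zero_nat
    simpa using ENNReal.tendsto_ofReal h5
  filter_upwards [g1, g2, g3, g4] with ω k1 k2 k3 k4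
  have l1 : 1 ≤ liminf (ratio S ω) atTop := by
    refine le_of_tendsto' t1 fun k => ?_
    obtain ⟨d0, hd0⟩ := k1 k
    exact le_liminf_of_le (by isBoundedDefault) (eventually_atTop.2 ⟨d0, hd0⟩)
  have l2 : liminf (ratio S ω) (atTop ⊓ 𝓟 {d : ℕ | d.Prime}) ≤ 1 := by
    refine ge_of_tendsto' t4 fun k => ?_
    refine liminf_le_of_frequently_le ?_ (by isBoundedDefault)
    rw [frequently_inf_principal, frequently_atTop]
    intro d0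
    obtain ⟨d, hd, hp, h⟩ := k4 k d0
    exact ⟨d, hd, hp, h⟩
  have l3 : liminf (ratio S ω) atTop ≤ liminf (ratio S ω) (atTop ⊓ 𝓟 {d : ℕ | d.Prime}) :=
    liminf_le_liminf_of_le inf_le_left (by isBoundedDefault) (by isBoundedDefault)
  have l4 : ∀ D : Set ℕ, Tendsto (tail z) (atTop ⊓ 𝓟 D) (𝓝 0) →
      limsup (ratio S ω) (atTop ⊓ 𝓟 D) ≤ 2 := by
    intro D hD
    refine ge_of_tendsto' t2 fun k => ?_
    obtain ⟨κ, hκ, d0, hd0⟩ := k2 k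
    refine limsup_le_of_le (by isBoundedDefault) ?_
    have h5 : ∀ᶠ d in atTop ⊓ 𝓟 D, tail z d < κ := hD.eventually_lt_const hκ
    have h6 : ∀ᶠ d in atTop ⊓ 𝓟 D, d0 ≤ d := (eventually_ge_atTop d0).filter_mono inf_le_left
    filter_upwards [h5, h6] with d h7 h8
    exact hd0 d h8 h7.le
  have l5 : 2 ≤ limsup (ratio S ω) (atTop ⊓ 𝓟 {d : ℕ | d.Prime}) := by
    refine le_of_tendsto' t3 fun k => ?_
    refine le_limsup_of_frequently_le ?_ (by isBoundedDefault)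
    rw [frequently_inf_principal, frequently_atTop]
    intro d0
    obtain ⟨d, hd, hp, h⟩ := k3 k d0
    exact ⟨d, hd, hp, h⟩
  exact ⟨le_antisymm (l3.trans l2) l1, le_antisymm l2 (l1.trans l3),
    le_antisymm (l4 _ (tail_primes z)) l5, l4⟩

end Pool.Agent.J6H40.WG
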